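import Pool.Agent.Helper46.DZ2.Tor

/-! The closure rule for the torus. -/

set_option autoImplicit false

namespace Pool.Agent.Helper46.DZ2

namespace Sys

variable {L : Type} [CommRing L] {G : Type} [Group G] {S : Sys L G}

variable (S) in
/-- `δ ∈ 𝒮(u)` -/
def SS (u d : Lˣ) : Prop := S.Rr ((1 + (d : L)) * u) ((u⁻¹ : Lˣ) : L)

variable {n : ℕ} (hn : 0 < n) (hf : ∀ a : L, a ^ (2 ^ n) = a) (h2 : ∀ a : L, a + a = 0)
  (hC : S.Cent)

include h2

theorem one_add_eq (u d : Lˣ) : 1 + (1 + (d : L)) * u * ((u⁻¹ : Lˣ) : L) = d := by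
  have : (u : L) * ((u⁻¹ : Lˣ) : L) = 1 := Units.mul_inv u
  linear_combination (1 + (d : L)) * this + h2 1

theorem SS.tor {u d : Lˣ} (h : S.SS u d) : S.Tor d := by
  obtain ⟨d', g, hd, hg, -⟩ := h
  have : d' = d := Units.ext (by rw [hd, one_add_eq h2])
  subst this
  exact ⟨g, hg⟩

theorem SS.one (u : Lˣ) : S.SS u 1 := by
  have e : (1 + ((1 : Lˣ) : L)) * u = 0 := by
    rw [Units.val_one, h2, zero_mul]
  unfold SS
  rw [e]
  refine ⟨1, 1, by simp, IsTor.one, ?_⟩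
  simp [S.E0]

omit h2 in
include hn hf in
theorem SS.scale (hC : S.Cent) {u d y : Lˣ} (h : S.SS u d) (hy : S.Tor y) : S.SS (y * u) d := by
  obtain ⟨g, hg⟩ := hy
  have hz2 : (y ^ (2 ^ (n - 1))) ^ 2 = y := unit_sqrt hn hf y
  have hzh := hg.pow (2 ^ (n - 1))
  have h1 := Rr.scale hC h hzh
  unfold SS
  have e1 : ((y ^ (2 ^ (n - 1)) : Lˣ) : L) ^ 2 * ((1 + (d : L)) * u) =
      (1 + (d : L)) * ((y * u : Lˣ) : L) := by
    rw [← Units.val_pow_eq_pow_val, hz2]; push_cast; ring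
  have e2 : (((y ^ (2 ^ (n - 1)))⁻¹ : Lˣ) : L) ^ 2 * ((u⁻¹ : Lˣ) : L) =
      (((y * u)⁻¹ : Lˣ) : L) := by
    rw [← Units.val_pow_eq_pow_val, inv_pow, hz2, mul_inv]; push_cast; ring
  rw [e1, e2] at h1
  exact h1

include hn hf in
theorem SS.mul (hC : S.Cent) {u d d' : Lˣ} (h : S.SS u d) (h' : S.SS u d') :
    S.SS u (d * d') := by
  have hd : S.Tor d := h.tor h2
  have h'' : S.SS (d * u) d' := h'.scale hn hf hC hd
  unfold SS at h''
  have e1 : (((d * u)⁻¹ : Lˣ) : L) = ((d⁻¹ : Lˣ) : L) * ((u⁻¹ : Lˣ) : L) := by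
    rw [mul_inv]; push_cast; ring
  rw [e1] at h''
  have h3 := Rr.comb (d1 := d) (s := (1 + (d : L)) * u) (b := ((u⁻¹ : Lˣ) : L))
    (one_add_eq h2 u d).symm h h''
  unfold SS
  have e2 : (1 + (d' : L)) * ((d * u : Lˣ) : L) + (1 + (d : L)) * u =
      (1 + ((d * d' : Lˣ) : L)) * u := by
    push_cast
    linear_combination h2 ((d : L) * u)
  rw [e2] at h3
  exact h3

include hn hf in
theorem SS.pow (hC : S.Cent) {u d : Lˣ} (h : S.SS u d) (m : ℕ) : S.SS u (d ^ m) := by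
  induction m with
  | zero => rw [pow_zero]; exact SS.one h2 u
  | succ m ih => rw [pow_succ]; exact ih.mul hn hf h2 hC h

omit h2 in
include hn hf in
theorem unit_inv_pow (y : Lˣ) : y⁻¹ = y ^ (2 ^ n - 2) := by
  have h1 : y ^ (2 ^ n - 1) = 1 := by
    have h := unit_pow hf y
    have h3 : y ^ (2 ^ n - 1) * y = y := by
      rw [← pow_succ, Nat.sub_add_cancel Nat.one_le_two_pow]; exact h
    exact mul_eq_right.1 h3
  have h4 : 2 ≤ 2 ^ n := by
    calc 2 = 2 ^ 1 := rfl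
      _ ≤ 2 ^ n := Nat.pow_le_pow_right (by norm_num) hn
  apply inv_eq_of_mul_eq_one_left
  rw [← pow_succ, ← h1]
  congr 1
  omega

include hn hf in
theorem SS.inv (hC : S.Cent) {u d : Lˣ} (h : S.SS u d) : S.SS u d⁻¹ := by
  rw [unit_inv_pow hn hf d]
  exact h.pow hn hf h2 hC _

include hn hf in
theorem SS.of_sq (hC : S.Cent) {u d : Lˣ} (h : S.SS u (d ^ 2)) : S.SS u d := by
  have h1 := h.pow hn hf h2 hC (2 ^ (n - 1))
  have h3 : (d ^ 2) ^ (2 ^ (n - 1)) = d := by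
    rw [← pow_mul, mul_comm, pow_mul]; exact unit_sqrt hn hf d
  rwa [h3] at h1

/-- L4 -/
theorem SS.flip (hC : S.Cent) {u d e : Lˣ} (he : (e : L) = 1 + (d : L)) (h : S.SS u d) :
    S.SS (e * u)⁻¹ d := by
  have h1 := Rr.symm h2 hC h
  unfold SS
  have e1 : (1 + (d : L)) * (((e * u)⁻¹ : Lˣ) : L) = ((u⁻¹ : Lˣ) : L) := by
    have : (e : L) * ((e⁻¹ : Lˣ) : L) = 1 := Units.mul_inv e
    rw [← he, mul_inv]; push_cast
    linear_combination ((u⁻¹ : Lˣ) : L) * this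
  have e2 : (((e * u)⁻¹⁻¹ : Lˣ) : L) = (1 + (d : L)) * u := by
    rw [inv_inv, ← he]; push_cast; ring
  rw [e1, e2]
  exact h1

include hn hf in
theorem SS.of_tor (hC : S.Cent) {d : Lˣ} (hd : S.Tor d) : S.SS 1 d := by
  unfold SS
  apply Rr.symm h2 hC
  have h1 : S.Tor (1 : Lˣ) := ⟨1, IsTor.one⟩
  have h3 := Rr.of_tor (a := 1) (d := d) (b := (1 + (d : L)) * ((1 : Lˣ) : L)) hn hf h2 hC h1 hd (by
    push_cast
    linear_combination - h2 1)
  simpa using h3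

include hn hf in
/-- L5 -/
theorem SS.eps_inv (hC : S.Cent) {d e : Lˣ} (he : (e : L) = 1 + (d : L)) (hd : S.Tor d) :
    S.SS e⁻¹ d := by
  have := (SS.of_tor hn hf h2 hC hd).flip h2 hC he
  rwa [mul_one] at this

include hn hf in
theorem SS.eps (hC : S.Cent) {d e : Lˣ} (he : (e : L) = 1 + (d : L)) (hd : S.Tor d) :
    S.SS e d := by
  have h1 : S.SS 1 (d ^ 2) := (SS.of_tor hn hf h2 hC hd).pow hn hf h2 hC 2
  have he2 : ((e ^ 2 : Lˣ) : L) = 1 + ((d ^ 2 : Lˣ) : L) := by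
    push_cast
    rw [he]
    linear_combination h2 (d : L)
  have h3 := h1.flip h2 hC he2
  rw [mul_one] at h3
  have h4 := h3.of_sq hn hf h2 hC
  have h5 := h4.flip h2 hC he
  have e5 : (e * (e ^ 2)⁻¹)⁻¹ = e := by group
  rwa [e5] at h5

omit h2 in
variable (S) in
/-- the candidate for `h_u w` -/
def W (u : Lˣ) : G := S.F ((u⁻¹ : Lˣ) : L) * S.E u * S.F ((u⁻¹ : Lˣ) : L)

theorem WW (u : Lˣ) : S.W u * S.W u = 1 := by
  unfold W
  have h1 := S.FF h2 ((u⁻¹ : Lˣ) : L)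
  have h3 := S.EE h2 (u : L)
  calc S.F ((u⁻¹ : Lˣ) : L) * S.E u * S.F ((u⁻¹ : Lˣ) : L) *
      (S.F ((u⁻¹ : Lˣ) : L) * S.E u * S.F ((u⁻¹ : Lˣ) : L))
      = S.F ((u⁻¹ : Lˣ) : L) * S.E u * (S.F ((u⁻¹ : Lˣ) : L) *
      S.F ((u⁻¹ : Lˣ) : L)) * S.E u * S.F ((u⁻¹ : Lˣ) : L) := by group
    _ = S.F ((u⁻¹ : Lˣ) : L) * (S.E u * S.E u) * S.F ((u⁻¹ : Lˣ) : L) := by rw [h1]; group
    _ = 1 := by rw [h3, mul_one, h1]

variable (S) in
def NN (u : Lˣ) : AddSubgroup L where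
  carrier := {a | S.W u * S.E a = S.F (((u⁻¹ : Lˣ) : L) ^ 2 * a) * S.W u}
  zero_mem' := by
    simp [S.E0, S.F0]
  add_mem' := by
    intro a b ha hb
    change S.W u * S.E (a + b) = S.F (((u⁻¹ : Lˣ) : L) ^ 2 * (a + b)) * S.W u
    change S.W u * S.E a = S.F (((u⁻¹ : Lˣ) : L) ^ 2 * a) * S.W u at ha
    change S.W u * S.E b = S.F (((u⁻¹ : Lˣ) : L) ^ 2 * b) * S.W u at hb
    rw [S.add, mul_add, S.Fadd, ← mul_assoc, ha, mul_assoc, hb, mul_assoc]
  neg_mem' := by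
    intro a ha
    have : -a = a := neg_eq_of_add_eq_zero_left (h2 a)
    rw [this]; exact ha

theorem mem_NN {u : Lˣ} {a : L} :
    a ∈ NN S h2 u ↔ S.W u * S.E a = S.F (((u⁻¹ : Lˣ) : L) ^ 2 * a) * S.W u := Iff.rfl

theorem NN_mem (hC : S.Cent) {u d : Lˣ} (h : S.SS u d) (h' : S.SS u⁻¹ d) :
    (u : L) * (1 + (d : L)) ∈ NN S h2 u := by
  rw [mem_NN]
  obtain ⟨d1, g, hd1, hg, he⟩ := h
  have hdd : d1 = d := Units.ext (by rw [hd1, one_add_eq h2])
  subst hdd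
  have h'' := Rr.symm h2 hC h'
  obtain ⟨d2, g2, hd2, hg2, he2⟩ := h''
  rw [inv_inv] at hd2 he2
  have iu : (u : L) * ((u⁻¹ : Lˣ) : L) = 1 := Units.mul_inv u
  have id : (d1 : L) * ((d1⁻¹ : Lˣ) : L) = 1 := Units.mul_inv d1
  have hdd2 : d2 = d1 := Units.ext (by
    rw [hd2]
    linear_combination (1 + (d1 : L)) * iu + h2 1)
  subst hdd2
  have hgg : g2 = g := hg2.unique hC hg
  subst hgg
  set p := ((u⁻¹ : Lˣ) : L) with hp
  set q := ((d2⁻¹ : Lˣ) : L) with hq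
  -- left
  have l1 : S.E ((u : L) * (1 + (d2 : L))) * S.W u = S.F (q * p) * g2 * S.E (q * u) * S.F p := by
    unfold W
    have : S.E ((u : L) * (1 + (d2 : L))) * (S.F p * S.E u * S.F p) =
      (S.E ((1 + (d2 : L)) * u) * S.F p) * S.E u * S.F p := by
      rw [mul_comm (u : L)]; group
    rw [this, he]
    have e1 : S.E (q * ((1 + (d2 : L)) * u)) * S.E u = S.E (q * u) := by
      rw [← S.add]; congr 1
      linear_combination (u : L) * id + h2 (u : L)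
    calc _ = S.F (q * p) * g2 * (S.E (q * ((1 + (d2 : L)) * u)) * S.E u) * S.F p := by group
      _ = _ := by rw [e1]
  have l2 : S.W u * S.F (p ^ 2 * ((u : L) * (1 + (d2 : L)))) =
      S.F (q * p) * g2 * S.E (q * u) * S.F p := by
    unfold W
    have e1 : p ^ 2 * ((u : L) * (1 + (d2 : L))) = (1 + (d2 : L)) * p := by
      linear_combination p * (1 + (d2 : L)) * iu
    have e3 : S.F p * S.F ((1 + (d2 : L)) * p) = S.F ((1 + (d2 : L)) * p) * S.F p := by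
      rw [← S.Fadd, ← S.Fadd, add_comm]
    have e4 : S.F p * S.F (q * ((1 + (d2 : L)) * p)) = S.F (q * p) := by
      rw [← S.Fadd]; congr 1
      linear_combination p * id + h2 p
    rw [e1]
    calc S.F p * S.E u * S.F p * S.F ((1 + (d2 : L)) * p)
        = S.F p * S.E u * (S.F p * S.F ((1 + (d2 : L)) * p)) := by group
      _ = S.F p * (S.E u * S.F ((1 + (d2 : L)) * p)) * S.F p := by rw [e3]; group
      _ = (S.F p * S.F (q * ((1 + (d2 : L)) * p))) * g2 * S.E (q * u) * S.F p := by rw [he2]; group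
      _ = _ := by rw [e4]
  have l3 : S.E ((u : L) * (1 + (d2 : L))) * S.W u =
      S.W u * S.F (p ^ 2 * ((u : L) * (1 + (d2 : L)))) := by rw [l1, l2]
  have hW := WW (S := S) h2 u
  calc S.W u * S.E ((u : L) * (1 + (d2 : L)))
      = S.W u * (S.E ((u : L) * (1 + (d2 : L))) * S.W u) * S.W u := by
        rw [mul_assoc, mul_assoc, hW, mul_one]
    _ = (S.W u * S.W u) * S.F (p ^ 2 * ((u : L) * (1 + (d2 : L)))) * S.W u := by
        rw [l3]; group
    _ = _ := by rw [hW, one_mul]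

theorem tor_of_NN {u : Lˣ} (h : NN S h2 u = ⊤) : S.Tor u := by
  have hE : ∀ a : L, S.W u * S.E a = S.F (((u⁻¹ : Lˣ) : L) ^ 2 * a) * S.W u := by
    intro a
    have : a ∈ NN S h2 u := by rw [h]; trivial
    exact this
  have hW := WW (S := S) h2 u
  have iu : (u : L) * ((u⁻¹ : Lˣ) : L) = 1 := Units.mul_inv u
  have hF : ∀ a : L, S.W u * S.F a = S.E ((u : L) ^ 2 * a) * S.W u := by
    intro a
    have h1 := hE ((u : L) ^ 2 * a)
    have e1 : ((u⁻¹ : Lˣ) : L) ^ 2 * ((u : L) ^ 2 * a) = a := by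
      linear_combination a * ((u : L) * ((u⁻¹ : Lˣ) : L) + 1) * iu
    rw [e1] at h1
    calc S.W u * S.F a = S.W u * (S.F a * S.W u) * S.W u := by
          rw [mul_assoc, mul_assoc, hW, mul_one]
      _ = (S.W u * S.W u) * S.E ((u : L) ^ 2 * a) * S.W u := by rw [← h1]; group
      _ = _ := by rw [hW, one_mul]
  have hWi : (S.W u)⁻¹ = S.W u := inv_eq_of_mul_eq_one_left hW
  have hw := S.winv
  refine ⟨S.W u * S.w, ?_, ?_⟩
  · intro a
    calc S.W u * S.w * S.E a * (S.W u * S.w)⁻¹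
        = S.W u * (S.w * S.E a * S.w⁻¹) * (S.W u)⁻¹ := by group
      _ = (S.W u * S.F a) * (S.W u)⁻¹ := by rw [hw]; rfl
      _ = _ := by rw [hF]; group
  · intro a
    calc S.W u * S.w * S.F a * (S.W u * S.w)⁻¹
        = S.W u * (S.w * S.F a * S.w⁻¹) * (S.W u)⁻¹ := by group
      _ = (S.W u * S.E a) * (S.W u)⁻¹ := by rw [hw, S.wF]
      _ = _ := by rw [hE]; group

include hn hf in
theorem close (hC : S.Cent) {d z e1 e2 e3 : Lˣ} (hd : S.Tor d) (_hz : S.Tor z)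
    (he1 : S.Tor e1) (he2 : S.Tor e2) (h1 : (e1 : L) = 1 + (z : L))
    (h3 : (e2 : L) = 1 + (d : L) * (z : L)) (h4 : (e3 : L) = 1 + (d : L))
    (hz : AddSubgroup.closure (Set.range (fun i : ℕ => (z : L) ^ i)) = ⊤) : S.Tor e3 := by
  have mulT : ∀ {a b : Lˣ}, S.Tor a → S.Tor b → S.Tor (a * b) :=
    fun ha hb => S.torSub.mul_mem ha hb
  have invT : ∀ {a : Lˣ}, S.Tor a → S.Tor a⁻¹ := fun ha => S.torSub.inv_mem ha
  have i2 : (e2 : L) * ((e2⁻¹ : Lˣ) : L) = 1 := Units.mul_inv e2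
  -- d1 = d e1 / e2
  set d1 : Lˣ := d * e1 * e2⁻¹ with hd1
  have hd1T : S.Tor d1 := mulT (mulT hd he1) (invT he2)
  have hed1 : ((e3 * e2⁻¹ : Lˣ) : L) = 1 + (d1 : L) := by
    rw [hd1]; push_cast
    rw [h4, h1]
    linear_combination (1 : L) * i2 - ((e2⁻¹ : Lˣ) : L) * h3 - h2 (((e2⁻¹ : Lˣ) : L) * d * z)
  -- membership in both 𝒮(e3), 𝒮(e3⁻¹)
  have sd : S.SS e3 d := SS.eps hn hf h2 hC h4 hd
  have sd' : S.SS e3⁻¹ d := SS.eps_inv hn hf h2 hC h4 hd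
  have s1 : S.SS e3 d1 := by
    have h := (SS.eps hn hf h2 hC hed1 hd1T).scale hn hf hC he2
    have e : e2 * (e3 * e2⁻¹) = e3 := by
      rw [mul_comm e3, ← mul_assoc, mul_inv_cancel, one_mul]
    rwa [e] at h
  have s1' : S.SS e3⁻¹ d1 := by
    have h := (SS.eps_inv hn hf h2 hC hed1 hd1T).scale hn hf hC (invT he2)
    have e : e2⁻¹ * (e3 * e2⁻¹)⁻¹ = e3⁻¹ := by
      rw [mul_inv, inv_inv, mul_comm e3⁻¹, ← mul_assoc, inv_mul_cancel, one_mul]
    rwa [e] at h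
  -- the subgroup `H`
  let H : Subgroup Lˣ :=
    { carrier := {σ | S.SS e3 σ ∧ S.SS e3⁻¹ σ}
      one_mem' := ⟨SS.one h2 _, SS.one h2 _⟩
      mul_mem' := fun ha hb => ⟨ha.1.mul hn hf h2 hC hb.1, ha.2.mul hn hf h2 hC hb.2⟩
      inv_mem' := fun ha => ⟨ha.1.inv hn hf h2 hC, ha.2.inv hn hf h2 hC⟩ }
  have hHd : d ∈ H := ⟨sd, sd'⟩
  have hHd1 : d1 ∈ H := ⟨s1, s1'⟩
  have hHr : e1 * e2⁻¹ ∈ H := by
    have : d⁻¹ * d1 = e1 * e2⁻¹ := by rw [hd1]; group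
    rw [← this]
    exact H.mul_mem (H.inv_mem hHd) hHd1
  have hN : ∀ σ ∈ H, (e3 : L) * (1 + (σ : L)) ∈ NN S h2 e3 := fun σ hσ =>
    NN_mem h2 hC hσ.1 hσ.2
  -- the additive group `V`
  set V : AddSubgroup L := AddSubgroup.closure {v | ∃ σ ∈ H, v = 1 + (σ : L)} with hV
  have hVmul : ∀ τ ∈ H, ∀ v ∈ V, (τ : L) * v ∈ V := by
    intro τ hτ v hv
    induction hv using AddSubgroup.closure_induction with
    | mem v hv =>
      obtain ⟨σ, hσ, rfl⟩ := hv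
      have e : (τ : L) * (1 + (σ : L)) = (1 + ((τ * σ : Lˣ) : L)) + (1 + (τ : L)) := by
        push_cast
        linear_combination - h2 1
      rw [e]
      exact V.add_mem (AddSubgroup.subset_closure ⟨τ * σ, H.mul_mem hτ hσ, rfl⟩)
        (AddSubgroup.subset_closure ⟨τ, hτ, rfl⟩)
    | zero => rw [mul_zero]; exact V.zero_mem
    | add a b _ _ ha hb => rw [mul_add]; exact V.add_mem ha hb
    | neg a _ ha => rw [mul_neg]; exact V.neg_mem ha
  let B : Subring L :=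
    { carrier := {b | ∀ v ∈ V, b * v ∈ V}
      one_mem' := fun v hv => by rwa [one_mul]
      zero_mem' := fun v _ => by rw [zero_mul]; exact V.zero_mem
      add_mem' := fun ha hb v hv => by rw [add_mul]; exact V.add_mem (ha v hv) (hb v hv)
      mul_mem' := fun ha hb v hv => by rw [mul_assoc]; exact ha _ (hb v hv)
      neg_mem' := fun ha v hv => by rw [neg_mul]; exact V.neg_mem (ha v hv) }
  have hBH : ∀ τ ∈ H, (τ : L) ∈ B := fun τ hτ v hv => hVmul τ hτ v hv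
  -- `e3/e2 = 1 + d1 ∈ B`
  have hB1 : ((e3 * e2⁻¹ : Lˣ) : L) ∈ B := by
    rw [hed1]
    exact B.add_mem B.one_mem (hBH _ hHd1)
  have hB2 : (((e3 * e2⁻¹)⁻¹ : Lˣ) : L) ∈ B := by
    rw [unit_inv_pow hn hf (e3 * e2⁻¹), Units.val_pow_eq_pow_val]
    exact B.pow_mem hB1 _
  have hB3 : (z : L) ∈ B := by
    have e : (z : L) = (1 + ((e1 * e2⁻¹ : Lˣ) : L)) * (((e3 * e2⁻¹)⁻¹ : Lˣ) : L) := by
      have i3 : (e3 : L) * ((e3⁻¹ : Lˣ) : L) = 1 := Units.mul_inv e3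
      rw [mul_inv, inv_inv]
      push_cast
      rw [h1]
      -- (1 + (1+z)/e2) * (e2/e3) = z
      have : (1 + (1 + (z : L)) * ((e2⁻¹ : Lˣ) : L)) * (((e3⁻¹ : Lˣ) : L) * (e2 : L)) =
          ((e2 : L) + (1 + z)) * ((e3⁻¹ : Lˣ) : L) := by
        linear_combination (1 + (z : L)) * ((e3⁻¹ : Lˣ) : L) * i2
      rw [this, h3]
      rw [h4] at i3
      linear_combination (-(z : L)) * i3 - h2 1 * ((e3⁻¹ : Lˣ) : L)
    rw [e]
    exact B.mul_mem (B.add_mem B.one_mem (hBH _ hHr)) hB2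
  have hBtop : ∀ b : L, b ∈ B := by
    intro b
    have hb : b ∈ AddSubgroup.closure (Set.range (fun i : ℕ => (z : L) ^ i)) := by
      rw [hz]; trivial
    have hle : AddSubgroup.closure (Set.range (fun i : ℕ => (z : L) ^ i)) ≤ B.toAddSubgroup := by
      rw [AddSubgroup.closure_le]
      rintro _ ⟨i, rfl⟩
      exact B.pow_mem hB3 i
    exact hle hb
  have hV3 : (e3 : L) ∈ V := AddSubgroup.subset_closure ⟨d, hHd, h4⟩
  have hVtop : ∀ v : L, v ∈ V := by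
    intro v
    have h := hBtop (v * ((e3⁻¹ : Lˣ) : L)) (e3 : L) hV3
    have e : v * ((e3⁻¹ : Lˣ) : L) * (e3 : L) = v := by
      rw [mul_assoc, Units.inv_mul, mul_one]
    rwa [e] at h
  apply tor_of_NN h2
  rw [AddSubgroup.eq_top_iff']
  intro a
  have hkey : ∀ v ∈ V, (e3 : L) * v ∈ NN S h2 e3 := by
    intro v hv
    induction hv using AddSubgroup.closure_induction with
    | mem v hv =>
      obtain ⟨σ, hσ, rfl⟩ := hv
      exact hN σ hσ
    | zero => rw [mul_zero]; exact AddSubgroup.zero_mem _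
    | add a b _ _ ha hb => rw [mul_add]; exact AddSubgroup.add_mem _ ha hb
    | neg a _ ha => rw [mul_neg]; exact AddSubgroup.neg_mem _ ha
  have h := hkey (((e3⁻¹ : Lˣ) : L) * a) (hVtop _)
  rwa [← mul_assoc, Units.mul_inv, one_mul] at h

end Sys

theorem hClose : StClose := by
  intro L _ G _ S n hn h2 hf hC d z e1 e2 e3 hd hz he1 he2 h1 h3 h4 hs
  exact Sys.close hn hf h2 hC hd hz he1 he2 h1 h3 h4 hs

end Pool.Agent.Helper46.DZ2
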