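import Pool.Agent.Helper46.DZ2.Close

/-! Finiteness when the torus is full. -/

set_option autoImplicit false

namespace Pool.Agent.Helper46.DZ2

section count

variable {L : Type} [CommRing L] {n M l : ℕ} {x : Lˣ}

theorem Rg.exists2 (h : Rg L n M l x) {A B C D A' B' C' D' : L} (h1 : A * C + B * D = 1)
    (h2 : A' * C' + B' * D' = 1) :
    ∃ b : ℕ, IsUnit (A + (x : L) ^ b * B) ∧ IsUnit (A' + (x : L) ^ b * B') := by
  classical
  by_contra hcon
  push Not at hcon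
  have b1 := h.bad A B C D h1
  have b2 := h.bad A' B' C' D' h2
  rw [Nat.card_eq_fintype_card, Fintype.card_subtype] at b1 b2
  have hsub : (Finset.univ : Finset (Fin M)) ⊆
      (Finset.univ.filter fun b : Fin M => ¬ IsUnit (A + (x : L) ^ (b : ℕ) * B)) ∪
      (Finset.univ.filter fun b : Fin M => ¬ IsUnit (A' + (x : L) ^ (b : ℕ) * B')) := by
    intro b _
    rw [Finset.mem_union, Finset.mem_filter, Finset.mem_filter]
    by_cases hb : IsUnit (A + (x : L) ^ (b : ℕ) * B)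
    · exact Or.inr ⟨Finset.mem_univ _, hcon b hb⟩
    · exact Or.inl ⟨Finset.mem_univ _, hb⟩
  have h3 := (Finset.card_le_card hsub).trans (Finset.card_union_le _ _)
  rw [Finset.card_univ, Fintype.card_fin] at h3
  omega

end count

namespace Sys

variable {L : Type} [CommRing L] {G : Type} [Group G] {S : Sys L G}
variable {n M l : ℕ} {x : Lˣ}

theorem rr_all (hR : Rg L n M l x) (hC : S.Cent) (hT : ∀ y : Lˣ, S.Tor y) {a b : L} {d : Lˣ}
    (hd : (d : L) = 1 + a * b) : S.Rr a b := by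
  obtain ⟨i, hi1, hi2⟩ := hR.exists2 (A := a) (B := 1) (C := 0) (D := 1) (A' := 1) (B' := b)
    (C' := 1) (D' := 0) (by ring) (by ring)
  obtain ⟨u1, hu1⟩ := hi1
  obtain ⟨u2, hu2⟩ := hi2
  have h2 := hR.two
  have r1 : S.Rr ((x ^ i : Lˣ) : L) b :=
    Rr.of_tor (a := x ^ i) (d := u2) hR.n0 hR.frob h2 hC (hT _) (hT _) (by rw [hu2]; push_cast; ring)
  have i2 : (u2 : L) * ((u2⁻¹ : Lˣ) : L) = 1 := Units.mul_inv u2
  have r2 : S.Rr (u1 : L) (((u2⁻¹ : Lˣ) : L) * b) := by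
    refine Rr.of_tor (a := u1) (d := u2⁻¹ * d) hR.n0 hR.frob h2 hC (hT _) (hT _) ?_
    push_cast
    rw [hd, hu1]
    linear_combination i2 - ((u2⁻¹ : Lˣ) : L) * hu2 - h2 (((u2⁻¹ : Lˣ) : L) * (x : L) ^ i * b)
  have r3 := Rr.comb (d1 := u2) (by rw [hu2]; push_cast; ring) r1 r2
  have e : (u1 : L) + ((x ^ i : Lˣ) : L) = a := by
    rw [hu1]; push_cast
    linear_combination h2 ((x : L) ^ i)
  rwa [e] at r3

/-- the big cell times -/
def Cell (S : Sys L G) : Set G :=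
  {g | ∃ (a b c : L) (y : Lˣ) (h : G), S.IsTor y h ∧ g = S.E a * S.F b * h * S.E c}

theorem cell_E {g : G} (hg : g ∈ Cell S) (c : L) : g * S.E c ∈ Cell S := by
  obtain ⟨a, b, c', y, h, hh, rfl⟩ := hg
  exact ⟨a, b, c' + c, y, h, hh, by rw [S.add]; group⟩

theorem cell_F (hR : Rg L n M l x) (hC : S.Cent) (hT : ∀ y : Lˣ, S.Tor y) {g : G}
    (hg : g ∈ Cell S) (s : L) : g * S.F s ∈ Cell S := by
  obtain ⟨a, b, c, y, h, hh, rfl⟩ := hg
  have h2 := hR.two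
  obtain ⟨i, hi1, hi2⟩ := hR.exists2 (A := 1 + c * s) (B := s) (C := 1) (D := -c) (A' := 1)
    (B' := (y : L) ^ 2 * b) (C' := 1) (D' := 0) (by ring) (by ring)
  obtain ⟨u1, hu1⟩ := hi1
  obtain ⟨u2, hu2⟩ := hi2
  set κ : L := (x : L) ^ i with hκ
  have r1 : S.Rr (c + κ) s := rr_all hR hC hT (d := u1) (by rw [hu1]; ring)
  have r2 : S.Rr ((y : L) ^ 2 * κ) b := rr_all hR hC hT (d := u2) (by rw [hu2]; ring)
  obtain ⟨d, k, -, hk, he⟩ := r1
  obtain ⟨d', k', -, hk', he'⟩ := r2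
  have e1 : S.E c = S.E κ * S.E (c + κ) := by
    rw [← S.add]; congr 1; linear_combination - h2 κ
  have e2 : h * S.E κ = S.E ((y : L) ^ 2 * κ) * h := hh.gE κ
  have e3 : S.F b * S.E ((y : L) ^ 2 * κ) =
      S.E (((d'⁻¹ : Lˣ) : L) * ((y : L) ^ 2 * κ)) * k'⁻¹ * S.F (((d'⁻¹ : Lˣ) : L) * b) := by
    have : (S.E ((y : L) ^ 2 * κ) * S.F b)⁻¹ = S.F b * S.E ((y : L) ^ 2 * κ) := by
      rw [mul_inv_rev, S.Einv h2, S.Finv h2]
    rw [← this, he', mul_inv_rev, mul_inv_rev, S.Einv h2, S.Finv h2, mul_assoc]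
  have e4 := hk'.inv.gF (((d'⁻¹ : Lˣ) : L) * b)
  have e5 := hh.gF (((d⁻¹ : Lˣ) : L) * s)
  set b1 : L := (((d'⁻¹)⁻¹ : Lˣ) : L) ^ 2 * (((d'⁻¹ : Lˣ) : L) * b) with hb1
  set a1 : L := ((d'⁻¹ : Lˣ) : L) * ((y : L) ^ 2 * κ) with ha1
  set b2 : L := ((y⁻¹ : Lˣ) : L) ^ 2 * (((d⁻¹ : Lˣ) : L) * s) with hb2
  have e6 := hk'.inv.gF b2
  set b3 : L := (((d'⁻¹)⁻¹ : Lˣ) : L) ^ 2 * b2 with hb3
  refine ⟨a + a1, b1 + b3, ((d⁻¹ : Lˣ) : L) * (c + κ), d'⁻¹ * y * d, k'⁻¹ * h * k,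
    (hk'.inv.mul hh).mul hk, ?_⟩
  rw [S.add, S.Fadd]
  calc S.E a * S.F b * h * S.E c * S.F s
      = S.E a * S.F b * (h * S.E κ) * (S.E (c + κ) * S.F s) := by rw [e1]; group
    _ = S.E a * (S.F b * S.E ((y : L) ^ 2 * κ)) * h * (S.E (c + κ) * S.F s) := by rw [e2]; group
    _ = S.E a * S.E a1 * (k'⁻¹ * S.F (((d'⁻¹ : Lˣ) : L) * b)) *
        (h * S.F (((d⁻¹ : Lˣ) : L) * s)) * k * S.E (((d⁻¹ : Lˣ) : L) * (c + κ)) := by
        rw [e3, he]; group
    _ = S.E a * S.E a1 * S.F b1 * (k'⁻¹ * S.F b2) * h * k *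
        S.E (((d⁻¹ : Lˣ) : L) * (c + κ)) := by rw [e4, e5]; group
    _ = _ := by rw [e6]; group

theorem cell_top (hR : Rg L n M l x) (hC : S.Cent) (hG : S.Gen) (hT : ∀ y : Lˣ, S.Tor y) (g : G) :
    g ∈ Cell S := by
  have hg : g ∈ Subgroup.closure (Set.range S.E ∪ {S.w}) := by
    rw [show Subgroup.closure (Set.range S.E ∪ {S.w}) = ⊤ from hG]; trivial
  have h2 := hR.two
  have hw : ∀ g ∈ Cell S, g * S.w ∈ Cell S := by
    intro g hg
    have : g * S.w = g * S.E 1 * S.F 1 * S.E 1 := by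
      have hb := S.br
      change S.E 1 * S.F 1 * S.E 1 = S.w at hb
      rw [← hb]; group
    rw [this]
    exact cell_E (cell_F hR hC hT (cell_E hg 1) 1) 1
  induction hg using Subgroup.closure_induction_right with
  | one => exact ⟨0, 0, 0, 1, 1, IsTor.one, by simp [S.E0, S.F0]⟩
  | mul_right g _ s hs ih =>
    rcases hs with ⟨c, rfl⟩ | hs
    · exact cell_E ih c
    · rw [Set.mem_singleton_iff] at hs
      rw [hs]; exact hw g ih
  | mul_inv_cancel g _ s hs ih =>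
    rcases hs with ⟨c, rfl⟩ | hs
    · rw [S.Einv h2]; exact cell_E ih c
    · rw [Set.mem_singleton_iff] at hs
      rw [hs, S.winv]; exact hw g ih

end Sys

theorem hD : StD := by
  intro L _ G _ S n M l x hR hC hG hT
  have hfin : Finite L := hR.fin
  choose t ht using hT
  have hsub : (Set.univ : Set G) ⊆
      Set.range (fun p : L × L × L × Lˣ => S.E p.1 * S.F p.2.1 * t p.2.2.2 * S.E p.2.2.1) := by
    intro g _
    obtain ⟨a, b, c, y, h, hh, rfl⟩ := Sys.cell_top hR hC hG (fun y => ⟨t y, ht y⟩) g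
    refine ⟨(a, b, c, y), ?_⟩
    rw [hh.unique hC (ht y)]
  exact Set.finite_univ_iff.1 ((Set.finite_range _).subset hsub)

/-- closure of the modules C, Close, D -/
theorem hFinC (hC : StC) : StFinC := by
  intro L _ G _ S n M l x hR hS hG hx
  have h1 := hC L n M l x hR S.torSub hx (by
    intro d z e1 e2 e3 hd hz he1 he2 h1 h3 h4 hs
    exact hClose L G S n hR.n0 hR.two hR.frob hS d z e1 e2 e3 hd hz he1 he2 h1 h3 h4 hs)
  refine hD L G S n M l x hR hS hG (fun y => ?_)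
  have : y ∈ S.torSub := by rw [h1]; trivial
  exact this

end Pool.Agent.Helper46.DZ2
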