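import Pool.Agent.Helper46.DZ2.Pres
import Pool.Agent.Helper46.DZ2.M_D
import Pool.Agent.Helper41.DZ.CompSeries

/-! Assembly. -/

set_option autoImplicit false

namespace Pool.Agent.Helper46.DZ2

open Pool.Agent.Helper41.DZ

section free

/-- generators -/
def ga : FreeGroup (Fin 3) := FreeGroup.of 0
def gw : FreeGroup (Fin 3) := FreeGroup.of 1
def gt : FreeGroup (Fin 3) := FreeGroup.of 2

/-- the three relators -/
def r1 : FreeGroup (Fin 3) := (ga * gw * ga) * (gw * ga * gw)⁻¹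

def r2 (k : ℤ) : FreeGroup (Fin 3) := ((phiW k ga gw)⁻¹ * gt * phiW k ga gw) * (gt ^ 2)⁻¹

def r3 (k : ℤ) (e l : ℕ) : FreeGroup (Fin 3) :=
  ((gw * (phiW k ga gw)⁻¹ * (ga * (phiW k ga gw)⁻¹))⁻¹ * gt *
    (gw * (phiW k ga gw)⁻¹ * (ga * (phiW k ga gw)⁻¹))) *
  (((gt ^ l)⁻¹ * (ga * (phiW k ga gw)⁻¹) * gt ^ l)⁻¹ * (gt ^ e)⁻¹)⁻¹

theorem map_phiW {G H : Type} [Group G] [Group H] (f : G →* H) (k : ℤ) (a w : G) :
    f (phiW k a w) = phiW k (f a) (f w) := by
  unfold phiW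
  rw [map_zpow, map_pow, map_mul]

/-- the exponent sum of `t` -/
def sumT : FreeGroup (Fin 3) →* Multiplicative ℤ :=
  FreeGroup.lift ![1, 1, Multiplicative.ofAdd 1]

theorem sumT_a : sumT ga = 1 := by simp [sumT, ga]
theorem sumT_w : sumT gw = 1 := by simp [sumT, gw]
theorem sumT_t : sumT gt = Multiplicative.ofAdd 1 := by simp [sumT, gt]

theorem sumT_phi (k : ℤ) : sumT (phiW k ga gw) = 1 := by
  rw [map_phiW, sumT_a, sumT_w]; simp [phiW]

theorem sumT_r1 : sumT r1 = 1 := by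
  simp only [r1, map_mul, map_inv, sumT_a, sumT_w]; simp

theorem sumT_r2 (k : ℤ) : sumT (r2 k) = Multiplicative.ofAdd (-1) := by
  simp only [r2, map_mul, map_inv, map_pow, sumT_phi, sumT_t]
  rw [← ofAdd_nsmul]
  simp only [inv_one, one_mul, mul_one]
  rw [← ofAdd_neg, ← ofAdd_add]
  congr 1

theorem sumT_r3 (k : ℤ) (e l : ℕ) : sumT (r3 k e l) = Multiplicative.ofAdd (1 + (e : ℤ)) := by
  simp only [r3, map_mul, map_inv, map_pow, sumT_phi, sumT_t, sumT_a, sumT_w]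
  simp only [inv_one, one_mul, mul_one, inv_mul_cancel, inv_inv]
  rw [← ofAdd_nsmul, ← ofAdd_add]
  congr 1
  simp

/-- the set of relators -/
noncomputable def rels (k : ℤ) (e l : ℕ) : Finset (FreeGroup (Fin 3)) := by
  classical exact {r1, r2 k, r3 k e l}

theorem rels_card {k : ℤ} {e l : ℕ} (he : 0 < e) : (rels k e l).card = 3 := by
  classical
  have h12 : r1 ≠ r2 k := by
    intro h
    have := congrArg sumT h
    rw [sumT_r1, sumT_r2] at this
    have h' : (0 : ℤ) = -1 := Multiplicative.ofAdd.injective this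
    omega
  have h13 : r1 ≠ r3 k e l := by
    intro h
    have := congrArg sumT h
    rw [sumT_r1, sumT_r3] at this
    have h' : (0 : ℤ) = 1 + e := Multiplicative.ofAdd.injective this
    omega
  have h23 : r2 k ≠ r3 k e l := by
    intro h
    have := congrArg sumT h
    rw [sumT_r2, sumT_r3] at this
    have h' : (-1 : ℤ) = 1 + e := Multiplicative.ofAdd.injective this
    omega
  rw [rels]
  convert Finset.card_eq_three.2 ⟨r1, r2 k, r3 k e l, h12, h13, h23, rfl⟩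

theorem mem_rels {k : ℤ} {e l : ℕ} (w : FreeGroup (Fin 3)) :
    w ∈ (rels k e l : Set (FreeGroup (Fin 3))) ↔ w = r1 ∨ w = r2 k ∨ w = r3 k e l := by
  classical
  simp [rels]

theorem rel3_iff {G : Type} [Group G] (f : FreeGroup (Fin 3) →* G) (k : ℤ) (e l : ℕ) :
    Rel3 k e l (f ga) (f gw) (f gt) ↔ f r1 = 1 ∧ f (r2 k) = 1 ∧ f (r3 k e l) = 1 := by
  unfold Rel3 r1 r2 r3
  simp only [map_mul, map_inv, map_pow, map_phiW]
  constructor
  · rintro ⟨h1, h2, h3⟩
    exact ⟨mul_inv_eq_one.2 (by simpa [mul_assoc] using h1), mul_inv_eq_one.2 h2, by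
      rw [← mul_inv_eq_one] at h3; simpa using h3⟩
  · rintro ⟨h1, h2, h3⟩
    refine ⟨mul_inv_eq_one.1 (by simpa [mul_assoc] using h1), mul_inv_eq_one.1 h2, ?_⟩
    rw [← mul_inv_eq_one]; simpa using h3

end free

theorem exists_k {n : ℕ} (hn : n.Prime) (h5 : 5 ≤ n) : ∃ k : ℤ, (6 * k - 1).natAbs = n := by
  have h2 : ¬ 2 ∣ n := by
    intro h
    have := (Nat.prime_dvd_prime_iff_eq Nat.prime_two hn).1 h
    omega
  have h3 : ¬ 3 ∣ n := by
    intro h
    have := (Nat.prime_dvd_prime_iff_eq Nat.prime_three hn).1 h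
    omega
  by_cases h : n % 6 = 5
  · exact ⟨((n + 1) / 6 : ℕ), by omega⟩
  · exact ⟨-((n / 6 : ℕ) : ℤ), by omega⟩

theorem main (hC : StC) (hRed : StRed) (hRing : StRing) (hNum : StNum) (hTarget : StTarget)
    (n : ℕ) (hn : n.Prime) (h5 : 5 ≤ n) :
    ∃ (G : Type) (_ : Group G), Finite G ∧ DeficiencyZero G ∧
      IsCompositionFactor (Matrix.ProjectiveSpecialLinearGroup (Fin 2) (GaloisField 2 n)) G := by
  obtain ⟨M, l, e, x, hM1, hMN, hphi, hox, hxl, hR, he, heM, hgcd⟩ := hNum n hn h5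
  obtain ⟨k, hk⟩ := exists_k hn h5
  let R := rels k e l
  let G := PresentedGroup (R : Set (FreeGroup (Fin 3)))
  let π : FreeGroup (Fin 3) →* G := PresentedGroup.mk (R : Set (FreeGroup (Fin 3)))
  have hrel : Rel3 k e l (π ga) (π gw) (π gt) := by
    rw [rel3_iff]
    exact ⟨PresentedGroup.one_of_mem ((mem_rels _).2 (Or.inl rfl)),
      PresentedGroup.one_of_mem ((mem_rels _).2 (Or.inr (Or.inl rfl))),
      PresentedGroup.one_of_mem ((mem_rels _).2 (Or.inr (Or.inr rfl)))⟩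
  have hgen : Subgroup.closure {π ga, π gw, π gt} = (⊤ : Subgroup G) := by
    rw [← PresentedGroup.closure_range_of (R : Set (FreeGroup (Fin 3)))]
    congr 1
    ext g
    constructor
    · rintro (rfl | rfl | rfl)
      · exact ⟨0, rfl⟩
      · exact ⟨1, rfl⟩
      · exact ⟨2, rfl⟩
    · rintro ⟨b, rfl⟩
      fin_cases b
      · exact Or.inl rfl
      · exact Or.inr (Or.inl rfl)
      · exact Or.inr (Or.inr rfl)
  have hfin : Finite G :=
    hPres (hRed (hFinC hC)) n M l e k hn h5 hk hM1 hMN he heM hgcd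
      (hRing n M l hn h5 hM1 hMN hphi hR) G (π ga) (π gw) (π gt) hrel hgen
  have hdef : DeficiencyZero G :=
    ⟨Fin 3, inferInstance, R, by rw [rels_card he]; rfl, ⟨MulEquiv.refl _⟩⟩
  obtain ⟨T, _, a, w, t, hrelT, hTr⟩ := hTarget n M l e k x hn h5 hk hM1 hox hxl heM
  let ρ : FreeGroup (Fin 3) →* T := FreeGroup.lift ![a, w, t]
  have ρa : ρ ga = a := by simp [ρ, ga]
  have ρw : ρ gw = w := by simp [ρ, gw]
  have ρt : ρ gt = t := by simp [ρ, gt]
  have hρ := (rel3_iff ρ k e l).1 (by rw [ρa, ρw, ρt]; exact hrelT)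
  have hrels : ∀ w' ∈ (R : Set (FreeGroup (Fin 3))), FreeGroup.lift ![a, w, t] w' = 1 := by
    intro w' hw'
    rcases (mem_rels w').1 hw' with rfl | rfl | rfl
    · exact hρ.1
    · exact hρ.2.1
    · exact hρ.2.2
  let φ : G →* T := PresentedGroup.toGroup hrels
  have hφ : ∀ i : Fin 3, φ (PresentedGroup.of i) = ![a, w, t] i := fun i =>
    PresentedGroup.toGroup.of hrels (x := i)
  obtain ⟨L, hL, f', hf'⟩ := hTr G φ ⟨_, hφ 0⟩ ⟨_, hφ 1⟩ ⟨_, hφ 2⟩
  have hcard : 4 ≤ Nat.card (GaloisField 2 n) := by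
    rw [GaloisField.card 2 n (by omega)]
    calc 4 = 2 ^ 2 := rfl
      _ ≤ 2 ^ n := Nat.pow_le_pow_right (by norm_num) (by omega)
  exact ⟨G, inferInstance, hfin, hdef,
    factor_of_section _ (Matrix.ProjectiveSpecialLinearGroup.rank_two_simple hcard) _ G rfl L hL f'
      hf'⟩

end Pool.Agent.Helper46.DZ2
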