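import Pool.Agent.Helper46.DZ2.Rels

/-! From the relations to a finite group. -/

set_option autoImplicit false

namespace Pool.Agent.Helper46.DZ2

open Polynomial

theorem exists_E (V : Type) [AddCommGroup V] (hV : ∀ v : V, v + v = 0) (T : V →+ V) (v0 : V)
    (M l : ℕ) (hM : ∀ v, (T^[M]) v = v) (hl : ∀ v, (T^[l]) v = T v + v) :
    ∃ E : Lam M l → V, (∀ p q, E (p + q) = E p + E q) ∧ E 1 = v0 ∧
      ∀ p, E (Ideal.Quotient.mk
        (Ideal.span {(X : (ZMod 2)[X]) ^ M - 1, (X : (ZMod 2)[X]) ^ l + X + 1}) X * p) =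
        T (E p) := by
  letI : Module (ZMod 2) V := AddCommGroup.zmodModule (n := 2)
    (fun v => by rw [two_nsmul]; exact hV v)
  let T' : Module.End (ZMod 2) V := T.toZModLinearMap 2
  have hT' : ∀ v, T' v = T v := fun v => rfl
  have hTpow : ∀ (m : ℕ) (v : V), (T' ^ m) v = (T^[m]) v := by
    intro m v
    rw [Module.End.pow_apply]
    rfl
  let Φ : (ZMod 2)[X] →ₐ[ZMod 2] Module.End (ZMod 2) V := aeval T'
  have hker : ∀ p ∈ Ideal.span {(X : (ZMod 2)[X]) ^ M - 1, (X : (ZMod 2)[X]) ^ l + X + 1},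
      (Φ : (ZMod 2)[X] →+* Module.End (ZMod 2) V) p = 0 := by
    have hle : Ideal.span {(X : (ZMod 2)[X]) ^ M - 1, (X : (ZMod 2)[X]) ^ l + X + 1} ≤
        RingHom.ker (Φ : (ZMod 2)[X] →+* Module.End (ZMod 2) V) := by
      rw [Ideal.span_le]
      rintro p (rfl | rfl)
      · change (Φ : (ZMod 2)[X] →+* Module.End (ZMod 2) V) _ = 0
        change Φ _ = 0
        rw [map_sub, map_pow, map_one, aeval_X]
        ext v
        rw [LinearMap.sub_apply, hTpow, hM]
        simp
      · change Φ _ = 0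
        rw [map_add, map_add, map_pow, map_one, aeval_X]
        ext v
        rw [LinearMap.add_apply, LinearMap.add_apply, hTpow, hl]
        simp only [Module.End.one_apply, LinearMap.zero_apply, hT']
        calc T v + v + T v + v = (T v + T v) + (v + v) := by abel
          _ = 0 := by rw [hV, hV, add_zero]
    exact fun p hp => hle hp
  let Ψ : Lam M l →+* Module.End (ZMod 2) V := Ideal.Quotient.lift _ _ hker
  refine ⟨fun p => Ψ p v0, ?_, ?_, ?_⟩
  · intro p q
    change Ψ (p + q) v0 = _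
    rw [map_add]; rfl
  · change Ψ 1 v0 = _
    rw [map_one]; rfl
  · intro p
    change Ψ (_ * p) v0 = _
    rw [map_mul]
    have : Ψ (Ideal.Quotient.mk
        (Ideal.span {(X : (ZMod 2)[X]) ^ M - 1, (X : (ZMod 2)[X]) ^ l + X + 1}) X) = T' := by
      change Ideal.Quotient.lift _ _ hker (Ideal.Quotient.mk _ X) = T'
      rw [Ideal.Quotient.lift_mk]
      exact aeval_X T'
    rw [this]
    rfl

section grp

variable {G : Type} [Group G]

theorem Good.exists_E {n M l : ℕ} {a w t f : G} (h : Good n M l a w t f) :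
    ∃ E : Lam M l → G, (∀ p q, E (p + q) = E p * E q) ∧ E 1 = a ∧
      ∀ p, E (Ideal.Quotient.mk
        (Ideal.span {(X : (ZMod 2)[X]) ^ M - 1, (X : (ZMod 2)[X]) ^ l + X + 1}) X * p) =
        t⁻¹ * E p * t := by
  let U : Subgroup G := Subgroup.closure (Set.range (fun i : ℤ => cj a t i))
  have hconj : ∀ i j : ℤ, cj a t j = t ^ (-(j - i)) * cj a t i * t ^ (j - i) := by
    intro i j
    rw [cj_conj]; congr 1; ring
  have hc : ∀ x ∈ Set.range (fun i : ℤ => cj a t i), ∀ y ∈ Set.range (fun i : ℤ => cj a t i),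
      x * y = y * x := by
    rintro _ ⟨i, rfl⟩ _ ⟨j, rfl⟩
    have e := (h.comm (j - i)).eq
    have e1 : cj a t i = t ^ (-i) * a * t ^ i := rfl
    have e2 : cj a t j = t ^ (-i) * cj a t (j - i) * t ^ i := by
      rw [cj_conj]; congr 1; ring
    change cj a t i * cj a t j = cj a t j * cj a t i
    rw [e1, e2]
    calc t ^ (-i) * a * t ^ i * (t ^ (-i) * cj a t (j - i) * t ^ i)
        = t ^ (-i) * (a * cj a t (j - i)) * t ^ i := by group
      _ = t ^ (-i) * (cj a t (j - i) * a) * t ^ i := by rw [e]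
      _ = _ := by group
  letI : CommGroup U := Subgroup.closureCommGroupOfComm hc
  have hmem : ∀ i : ℤ, cj a t i ∈ U := fun i => Subgroup.subset_closure ⟨i, rfl⟩
  have hsq : ∀ u ∈ U, u * u = 1 := by
    intro u hu
    induction hu using Subgroup.closure_induction with
    | mem x hx =>
      obtain ⟨i, rfl⟩ := hx
      change cj a t i * cj a t i = 1
      unfold cj
      calc t ^ (-i) * a * t ^ i * (t ^ (-i) * a * t ^ i) = t ^ (-i) * (a * a) * t ^ i := by group
        _ = 1 := by rw [h.aa]; group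
    | one => simp
    | mul x y hx hy ihx ihy =>
      have e : (⟨x, hx⟩ : U) * ⟨y, hy⟩ = ⟨y, hy⟩ * ⟨x, hx⟩ := mul_comm _ _
      have e' : x * y = y * x := congrArg Subtype.val e
      calc x * y * (x * y) = (x * y) * (y * x) := by rw [← e']
        _ = x * (y * y) * x := by group
        _ = 1 := by rw [ihy, mul_one, ihx]
    | inv x _ ih =>
      rw [← mul_inv_rev, ih, inv_one]
  have hUt : ∀ u ∈ U, t⁻¹ * u * t ∈ U := by
    intro u hu
    induction hu using Subgroup.closure_induction with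
    | mem x hx =>
      obtain ⟨i, rfl⟩ := hx
      have := cj_conj a t i 1
      rw [zpow_neg, zpow_one] at this
      change t⁻¹ * cj a t i * t ∈ U
      rw [this]; exact hmem _
    | one => simp
    | mul x y _ _ ihx ihy =>
      have : t⁻¹ * (x * y) * t = (t⁻¹ * x * t) * (t⁻¹ * y * t) := by group
      rw [this]; exact U.mul_mem ihx ihy
    | inv x _ ih =>
      have : t⁻¹ * x⁻¹ * t = (t⁻¹ * x * t)⁻¹ := by group
      rw [this]; exact U.inv_mem ih
  let T : Additive U →+ Additive U :=
    { toFun := fun u => Additive.ofMul ⟨t⁻¹ * ((Additive.toMul u : U) : G) * t,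
        hUt _ (Additive.toMul u : U).2⟩
      map_zero' := by
        apply Additive.toMul.injective
        apply Subtype.ext
        change t⁻¹ * ((1 : U) : G) * t = 1
        simp
      map_add' := by
        intro u v
        apply Additive.toMul.injective
        apply Subtype.ext
        change t⁻¹ * (((Additive.toMul u : U) : G) * ((Additive.toMul v : U) : G)) * t =
          (t⁻¹ * ((Additive.toMul u : U) : G) * t) * (t⁻¹ * ((Additive.toMul v : U) : G) * t)
        group }
  have hT : ∀ u : Additive U, ((Additive.toMul (T u) : U) : G) =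
      t⁻¹ * ((Additive.toMul u : U) : G) * t := fun u => rfl
  have hTm : ∀ (m : ℕ) (u : Additive U), ((Additive.toMul ((T^[m]) u) : U) : G) =
      t ^ (-(m : ℤ)) * ((Additive.toMul u : U) : G) * t ^ (m : ℤ) := by
    intro m
    induction m with
    | zero => intro u; simp
    | succ m ih =>
      intro u
      rw [Function.iterate_succ_apply', hT, ih]
      push_cast
      group
  have extA : ∀ u v : Additive U, ((Additive.toMul u : U) : G) = ((Additive.toMul v : U) : G) →
      u = v := by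
    intro u v huv
    exact Additive.toMul.injective (Subtype.ext huv)
  obtain ⟨E, h1, h2, h3⟩ := DZ2.exists_E (Additive U)
    (by
      intro v
      apply extA
      exact hsq _ (Additive.toMul v : U).2) T (Additive.ofMul ⟨a, by
        have := hmem 0; rwa [cj_zero] at this⟩) M l
    (by
      intro v
      apply extA
      rw [hTm, zpow_neg, zpow_natCast, h.tM]; simp)
    (by
      intro v
      apply extA
      rw [hTm]
      change _ = (t⁻¹ * ((Additive.toMul v : U) : G) * t) * ((Additive.toMul v : U) : G)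
      -- for all elements of `U`
      have key : ∀ u ∈ U, t ^ (-(l : ℤ)) * u * t ^ (l : ℤ) = (t⁻¹ * u * t) * u := by
        intro u hu
        induction hu using Subgroup.closure_induction with
        | mem x hx =>
          obtain ⟨i, rfl⟩ := hx
          change t ^ (-(l : ℤ)) * cj a t i * t ^ (l : ℤ) = (t⁻¹ * cj a t i * t) * cj a t i
          have e1 := cj_conj a t i 1
          rw [zpow_neg, zpow_one] at e1
          rw [cj_conj, e1, add_comm i l, ← cj_conj, h.al, add_comm i 1, ← cj_conj a t 1 i]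
          unfold cj; group
        | one => simp
        | mul x y hx hy ihx ihy =>
          have e : (⟨x, hx⟩ : U) * ⟨t⁻¹ * y * t, hUt y hy⟩ = ⟨t⁻¹ * y * t, hUt y hy⟩ * ⟨x, hx⟩ :=
            mul_comm _ _
          have e' : x * (t⁻¹ * y * t) = (t⁻¹ * y * t) * x := congrArg Subtype.val e
          calc t ^ (-(l : ℤ)) * (x * y) * t ^ (l : ℤ)
              = (t ^ (-(l : ℤ)) * x * t ^ (l : ℤ)) * (t ^ (-(l : ℤ)) * y * t ^ (l : ℤ)) := by group
            _ = (t⁻¹ * x * t) * (x * (t⁻¹ * y * t)) * y := by rw [ihx, ihy]; group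
            _ = (t⁻¹ * x * t) * ((t⁻¹ * y * t) * x) * y := by rw [e']
            _ = _ := by group
        | inv x hx ih =>
          have e : (⟨x, hx⟩ : U) * ⟨t⁻¹ * x * t, hUt x hx⟩ = ⟨t⁻¹ * x * t, hUt x hx⟩ * ⟨x, hx⟩ :=
            mul_comm _ _
          have e' : x * (t⁻¹ * x * t) = (t⁻¹ * x * t) * x := congrArg Subtype.val e
          calc t ^ (-(l : ℤ)) * x⁻¹ * t ^ (l : ℤ) = (t ^ (-(l : ℤ)) * x * t ^ (l : ℤ))⁻¹ := by group
            _ = ((t⁻¹ * x * t) * x)⁻¹ := by rw [ih]
            _ = (x * (t⁻¹ * x * t))⁻¹ := by rw [e']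
            _ = _ := by group
      exact key _ (Additive.toMul v : U).2)
  refine ⟨fun p => ((Additive.toMul (E p) : U) : G), ?_, ?_, ?_⟩
  · intro p q
    change ((Additive.toMul (E (p + q)) : U) : G) = _
    rw [h1]; rfl
  · change ((Additive.toMul (E 1) : U) : G) = _
    rw [h2]; rfl
  · intro p
    change ((Additive.toMul (E (_ * p)) : U) : G) = _
    rw [h3]; rfl

end grp

section fin

variable {G : Type} [Group G]

theorem finite_of_good (hfin : StFin) {n M l : ℕ} (hn : 0 < n) (hMN : M ∣ 2 ^ n - 1)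
    (x : (Lam M l)ˣ) (hx : (x : Lam M l) = Ideal.Quotient.mk
        (Ideal.span {(X : (ZMod 2)[X]) ^ M - 1, (X : (ZMod 2)[X]) ^ l + X + 1}) X)
    (hR : Rg (Lam M l) n M l x) {a w t f : G} (h : Good n M l a w t f)
    (hgen : Subgroup.closure {a * f, w * f, t} = ⊤) : Finite G := by
  obtain ⟨E, E1, E2, E3⟩ := h.exists_E
  rw [← hx] at E3
  have ww := h.ww
  have aa := h.aa
  have wi : w⁻¹ = w := inv_eq_of_mul_eq_one_left ww
  -- `t w = w t⁻¹`
  have tw : t * w = w * t⁻¹ := by
    rw [← h.wt]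
    calc t * w = 1 * t * w := by group
      _ = _ := by rw [← ww]; group
  have wt : w * t = t⁻¹ * w := by
    rw [← h.wt, mul_assoc _ w w, ww, mul_one]
  have E3' : ∀ p, E (((x⁻¹ : (Lam M l)ˣ) : Lam M l) * p) = t * E p * t⁻¹ := by
    intro p
    have := E3 (((x⁻¹ : (Lam M l)ˣ) : Lam M l) * p)
    rw [← mul_assoc, Units.mul_inv, one_mul] at this
    rw [this]; group
  set k : Set G := Set.range E ∪ {w} with hk
  set G0 : Subgroup G := Subgroup.closure k with hG0
  have hE : ∀ p, E p ∈ G0 := fun p => Subgroup.subset_closure (Or.inl ⟨p, rfl⟩)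
  have hw : w ∈ G0 := Subgroup.subset_closure (Or.inr rfl)
  have br : a * (w * a * w) * a = w := by
    calc a * (w * a * w) * a = a * w * (a * w * a) := by group
      _ = a * w * (w * a * w) := by rw [h.awa]
      _ = a * (w * w) * a * w := by group
      _ = w := by rw [ww, mul_one, aa, one_mul]
  -- `t² ∈ G0`
  have ht2 : t * t ∈ G0 := by
    have e1 : t * t = (t * w * t⁻¹) * w := by
      rw [tw]
      calc t * t = (w * t⁻¹ * w) * (w * t⁻¹ * w) := by
            have : w * t⁻¹ * w = t := by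
              rw [← tw, mul_assoc, ww, mul_one]
            rw [this]
        _ = w * t⁻¹ * (w * w) * t⁻¹ * w := by group
        _ = w * t⁻¹ * t⁻¹ * w := by rw [ww, mul_one]
    have e2 : t * w * t⁻¹ = (t * a * t⁻¹) * (w * (t⁻¹ * a * t) * w) * (t * a * t⁻¹) := by
      calc t * w * t⁻¹ = t * (a * (w * a * w) * a) * t⁻¹ := by rw [br]
        _ = (t * a * t⁻¹) * ((t * w) * a * w * t⁻¹) * (t * a * t⁻¹) := by group
        _ = (t * a * t⁻¹) * (w * (t⁻¹ * a) * (w * t⁻¹)) * (t * a * t⁻¹) := by rw [tw]; group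
        _ = (t * a * t⁻¹) * (w * (t⁻¹ * a) * (t * w)) * (t * a * t⁻¹) := by rw [tw]
        _ = _ := by group
    rw [e1, e2, ← E2, ← E3, ← E3']
    exact G0.mul_mem (G0.mul_mem (G0.mul_mem (hE _) (G0.mul_mem (G0.mul_mem hw (hE _)) hw)) (hE _))
      hw
  have ht : t ∈ G0 := by
    have hodd : ¬ 2 ∣ M := by
      intro h2
      have h3 : 2 ∣ 2 ^ n - 1 := h2.trans hMN
      have h4 : 2 ∣ 2 ^ n := dvd_pow_self 2 (by omega)
      have h5 : 1 ≤ 2 ^ n := Nat.one_le_two_pow
      omega
    obtain ⟨m, hm⟩ : ∃ m, M = 2 * m + 1 := ⟨M / 2, by omega⟩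
    have e : t = ((t * t) ^ m)⁻¹ := by
      have h1 := h.tM
      rw [hm, pow_succ, pow_mul, pow_two] at h1
      exact (inv_eq_of_mul_eq_one_right h1).symm
    rw [e]
    exact G0.inv_mem (G0.pow_mem ht2 m)
  let S : Sys (Lam M l) G0 :=
    { E := fun p => ⟨E p, hE p⟩
      w := ⟨w, hw⟩
      add := fun p q => Subtype.ext (E1 p q)
      ww := Subtype.ext ww
      br := by
        apply Subtype.ext
        change E 1 * (w * E 1 * w) * E 1 = w
        rw [E2]; exact br }
  have hgenS : S.Gen := by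
    unfold Sys.Gen
    rw [← Subgroup.closure_closure_coe_preimage (k := k)]
    congr 1
    ext ⟨g, hg⟩
    constructor
    · rintro (⟨p, hp⟩ | hp)
      · exact Or.inl ⟨p, congrArg Subtype.val hp⟩
      · exact Or.inr (congrArg Subtype.val hp)
    · rintro (⟨p, hp⟩ | hp)
      · exact Or.inl ⟨p, Subtype.ext hp⟩
      · exact Or.inr (Subtype.ext hp)
  have hfin0 : Finite G0 := by
    refine hfin (Lam M l) G0 S n M l x hR hgenS ⟨⟨(t * t)⁻¹, G0.inv_mem ht2⟩, ?_, ?_⟩
    · intro p
      apply Subtype.ext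
      change (t * t)⁻¹ * E p * (t * t)⁻¹⁻¹ = E ((x : Lam M l) ^ 2 * p)
      have e : (x : Lam M l) ^ 2 * p = x * (x * p) := by ring
      rw [e, E3, E3, mul_inv_rev, mul_inv_rev, inv_inv]
      simp only [mul_assoc]
    · intro p
      apply Subtype.ext
      change (t * t)⁻¹ * (w * E p * w) * (t * t)⁻¹⁻¹ =
        w * E (((x⁻¹ : (Lam M l)ˣ) : Lam M l) ^ 2 * p) * w
      have e : ((x⁻¹ : (Lam M l)ˣ) : Lam M l) ^ 2 * p =
        ((x⁻¹ : (Lam M l)ˣ) : Lam M l) * (((x⁻¹ : (Lam M l)ˣ) : Lam M l) * p) := by ring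
      rw [e, E3', E3']
      calc (t * t)⁻¹ * (w * E p * w) * (t * t)⁻¹⁻¹
          = t⁻¹ * (t⁻¹ * w) * E p * (w * t) * t := by
            rw [mul_inv_rev, mul_inv_rev, inv_inv]
            simp only [mul_assoc]
        _ = t⁻¹ * (w * t) * E p * (t⁻¹ * w) * t := by rw [wt]
        _ = (t⁻¹ * w) * t * E p * t⁻¹ * (w * t) := by group
        _ = (w * t) * t * E p * t⁻¹ * (t⁻¹ * w) := by rw [wt]
        _ = _ := by group
  -- the conjugates of `a` are in the range of `E`
  have hEx : ∀ i : ℕ, E ((x : Lam M l) ^ i) = cj a t i := by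
    intro i
    induction i with
    | zero =>
      rw [pow_zero, E2, Nat.cast_zero, cj_zero]
    | succ i ih =>
      rw [pow_succ', E3, ih]
      have := cj_conj a t i 1
      rw [zpow_neg, zpow_one] at this
      rw [this]; push_cast; rfl
  have hcjf : ∀ i : ℕ, f⁻¹ * cj a t i * f = cj a t ((2 * i : ℕ) : ℤ) := by
    intro i
    have ftz : ∀ j : ℤ, f⁻¹ * t ^ j * f = t ^ (2 * j) := by
      intro j
      have : f⁻¹ * t ^ j * f = (f⁻¹ * t * f) ^ j := by
        have := conj_zpow (i := j) (a := f⁻¹) (b := t)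
        rw [inv_inv] at this
        exact this.symm
      rw [this, h.ft, zpow_mul]
      norm_num
    have q3 : f⁻¹ * a * f = a := by
      rw [mul_assoc, ← h.fa]; group
    unfold cj
    calc f⁻¹ * (t ^ (-(i : ℤ)) * a * t ^ (i : ℤ)) * f
        = (f⁻¹ * t ^ (-(i : ℤ)) * f) * (f⁻¹ * a * f) * (f⁻¹ * t ^ (i : ℤ) * f) := by group
      _ = _ := by rw [ftz, ftz, q3]; push_cast; congr 2; congr 1; ring
  have hEf : ∀ p, f⁻¹ * E p * f ∈ G0 := by
    have hE0 : E 0 = 1 := by
      have h0 := E1 0 0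
      rw [add_zero] at h0
      exact mul_eq_left.1 h0.symm
    intro p
    have hp : p ∈ AddSubgroup.closure (Set.range (fun i : ℕ => (x : Lam M l) ^ i)) := by
      rw [hR.span]; trivial
    induction hp using AddSubgroup.closure_induction with
    | mem p hp =>
      obtain ⟨i, rfl⟩ := hp
      change f⁻¹ * E ((x : Lam M l) ^ i) * f ∈ G0
      rw [hEx, hcjf, ← hEx]
      exact hE _
    | zero => rw [hE0]; simp
    | add p q _ _ ihp ihq =>
      have : f⁻¹ * E (p + q) * f = (f⁻¹ * E p * f) * (f⁻¹ * E q * f) := by rw [E1]; group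
      rw [this]; exact G0.mul_mem ihp ihq
    | neg p _ ihp =>
      have : -p = p := neg_eq_of_add_eq_zero_left (hR.two p)
      rw [this]; exact ihp
  have hwf : f⁻¹ * w * f ∈ G0 := by
    rw [mul_assoc, ← h.fw]
    have : f⁻¹ * (f * w) = w := by group
    rw [this]; exact hw
  have hf0 : ∀ g ∈ G0, f⁻¹ * g * f ∈ G0 := by
    intro g hg
    induction hg using Subgroup.closure_induction with
    | mem g hg =>
      rcases hg with ⟨p, rfl⟩ | hg
      · exact hEf p
      · rw [Set.mem_singleton_iff] at hg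
        rw [hg]; exact hwf
    | one => simp
    | mul x y _ _ ihx ihy =>
      have : f⁻¹ * (x * y) * f = (f⁻¹ * x * f) * (f⁻¹ * y * f) := by group
      rw [this]; exact G0.mul_mem ihx ihy
    | inv x _ ih =>
      have : f⁻¹ * x⁻¹ * f = (f⁻¹ * x * f)⁻¹ := by group
      rw [this]; exact G0.inv_mem ih
  have hfinS : Finite (G0 : Set G) := hfin0
  have hNf : f ∈ Subgroup.normalizer (G0 : Set G) := by
    rw [← inv_mem_iff]
    apply Subgroup.mem_normalizer_fintype
    intro g hg
    rw [inv_inv]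
    exact hf0 g hg
  have hle : G0 ≤ Subgroup.normalizer (G0 : Set G) := Subgroup.le_normalizer
  have ha0 : a ∈ G0 := by rw [← E2]; exact hE 1
  have hNtop : Subgroup.normalizer (G0 : Set G) = ⊤ := by
    rw [eq_top_iff, ← hgen, Subgroup.closure_le]
    rintro g (rfl | rfl | hg)
    · exact Subgroup.mul_mem _ (hle ha0) hNf
    · exact Subgroup.mul_mem _ (hle hw) hNf
    · rw [Set.mem_singleton_iff] at hg
      rw [hg]; exact hle ht
  have hnor : G0.Normal := Subgroup.normalizer_eq_top_iff.1 hNtop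
  have hq : Finite (G ⧸ G0) := by
    have hcyc : ∀ g : G ⧸ G0, g ∈ Subgroup.zpowers (QuotientGroup.mk' G0 f) := by
      intro g
      obtain ⟨g, rfl⟩ := QuotientGroup.mk'_surjective G0 g
      have hle2 : (⊤ : Subgroup G) ≤
          (Subgroup.zpowers (QuotientGroup.mk' G0 f)).comap (QuotientGroup.mk' G0) := by
        rw [← hgen, Subgroup.closure_le]
        rintro g (rfl | rfl | hg)
        · rw [SetLike.mem_coe, Subgroup.mem_comap]
          rw [map_mul, (QuotientGroup.eq_one_iff a).2 ha0 |> (fun h => (h : QuotientGroup.mk' G0 a = 1)),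
            one_mul]
          exact Subgroup.mem_zpowers _
        · rw [SetLike.mem_coe, Subgroup.mem_comap]
          rw [map_mul, (QuotientGroup.eq_one_iff w).2 hw |> (fun h => (h : QuotientGroup.mk' G0 w = 1)),
            one_mul]
          exact Subgroup.mem_zpowers _
        · rw [Set.mem_singleton_iff] at hg
          rw [SetLike.mem_coe, Subgroup.mem_comap]
          rw [hg, (QuotientGroup.eq_one_iff t).2 ht |> (fun h => (h : QuotientGroup.mk' G0 t = 1))]
          exact Subgroup.one_mem _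
      exact hle2 (Subgroup.mem_top g)
    have hfo : IsOfFinOrder (QuotientGroup.mk' G0 f) := by
      rw [isOfFinOrder_iff_pow_eq_one]
      exact ⟨n, hn, by rw [← map_pow, h.fn, map_one]⟩
    have hfz : Finite (Subgroup.zpowers (QuotientGroup.mk' G0 f)) := by
      exact (IsOfFinOrder.finite_zpowers hfo)
    have : (Set.univ : Set (G ⧸ G0)) ⊆ (Subgroup.zpowers (QuotientGroup.mk' G0 f) : Set (G ⧸ G0)) :=
      fun g _ => hcyc g
    exact Set.finite_univ_iff.1 (Set.Finite.subset (Set.toFinite _) this)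
  exact Finite.of_equiv _ (Subgroup.groupEquivQuotientProdSubgroup (s := G0)).symm

end fin

theorem hPres : StPres := by
  intro hfin n M l e k hn hn5 hk hM1 hMN he heM hgcd ⟨x, hx, hR⟩ G _ a' w' t hrel hgen
  have h := good_of_rel hrel hk he heM hgcd (l := l)
  refine finite_of_good hfin hn.pos hMN x hx hR h ?_
  rw [← hgen]
  congr 2
  · group
  · congr 1
    group

end Pool.Agent.Helper46.DZ2
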