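import Pool.Agent.Helper46.DZ2.St

/-! Consequences of the three relations. -/

set_option autoImplicit false

namespace Pool.Agent.Helper46.DZ2

variable {G : Type} [Group G]

theorem braid_comm_a {a w : G} (h : a * w * a = w * a * w) : Commute ((a * w) ^ 3) a := by
  change (a * w) ^ 3 * a = a * (a * w) ^ 3
  calc (a * w) ^ 3 * a = a * w * a * w * (a * w * a) := by
        simp only [pow_succ, pow_zero, one_mul, mul_assoc]
    _ = (a * w * a) * w * (w * a * w) := by rw [h]
    _ = a * (w * a * w) * (w * a * w) := by group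
    _ = a * (a * w * a) * (w * a * w) := by rw [h]
    _ = a * (a * w) ^ 3 := by simp only [pow_succ, pow_zero, one_mul, mul_assoc]

theorem braid_comm_w {a w : G} (h : a * w * a = w * a * w) : Commute ((a * w) ^ 3) w := by
  change (a * w) ^ 3 * w = w * (a * w) ^ 3
  calc (a * w) ^ 3 * w = a * w * a * (w * a * w) * w := by
        simp only [pow_succ, pow_zero, one_mul, mul_assoc]
    _ = (a * w * a) * (a * w * a) * w := by rw [← h]
    _ = (w * a * w) * (a * w * a) * w := by rw [h]
    _ = w * (a * w) ^ 3 := by simp only [pow_succ, pow_zero, one_mul, mul_assoc]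

/-- conjugate `t^{-i} a t^i` -/
def cj (a t : G) (i : ℤ) : G := t ^ (-i) * a * t ^ i

theorem cj_conj (a t : G) (i j : ℤ) : t ^ (-j) * cj a t i * t ^ j = cj a t (i + j) := by
  unfold cj
  rw [neg_add, zpow_add, zpow_add]
  have h : t ^ (-i) * t ^ (-j) = t ^ (-j) * t ^ (-i) := by
    rw [← zpow_add, ← zpow_add, add_comm]
  rw [h]; group

theorem cj_zero (a t : G) : cj a t 0 = a := by simp [cj]

/-- The structure obtained from the relations. -/
structure Good (n M l : ℕ) (a w t f : G) : Prop where
  aa : a * a = 1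
  ww : w * w = 1
  awa : a * w * a = w * a * w
  fa : f * a = a * f
  fw : f * w = w * f
  fn : f ^ n = 1
  ft : f⁻¹ * t * f = t ^ 2
  tM : t ^ M = 1
  wt : w * t * w = t⁻¹
  al : cj a t l = cj a t 1 * a

theorem good_of_rel {k : ℤ} {e l n M : ℕ} {a' w' t : G} (h : Rel3 k e l a' w' t)
    (hk : (6 * k - 1).natAbs = n) (he : 0 < e) (heM : e ≡ 1 [MOD M])
    (hM : Nat.gcd (2 ^ n - 1) (e ^ 2 - 1) = M) :
    Good n M l (a' * (phiW k a' w')⁻¹) (w' * (phiW k a' w')⁻¹) t (phiW k a' w') := by
  obtain ⟨h1, h2, h3⟩ := h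
  have ca := braid_comm_a h1
  have cw := braid_comm_w h1
  set c := (a' * w') ^ 3 with hc
  have hphi : phiW k a' w' = c ^ k := rfl
  set f := phiW k a' w' with hf
  have fa' : Commute f a' := by rw [hphi]; exact ca.zpow_left k
  have fw' : Commute f w' := by rw [hphi]; exact cw.zpow_left k
  set a := a' * f⁻¹ with ha
  set w := w' * f⁻¹ with hw
  have fa : Commute f a := fa'.mul_right (Commute.inv_right (Commute.refl f))
  have fw : Commute f w := fw'.mul_right (Commute.inv_right (Commute.refl f))
  have hfa : a' = a * f := by rw [ha]; group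
  have hfw : w' = w * f := by rw [hw]; group
  -- braid relation
  have e1 : a' * w' * a' = a * w * a * f ^ 3 := by
    rw [hfa, hfw]
    calc a * f * (w * f) * (a * f) = a * (f * w) * (f * a) * f := by group
      _ = a * (w * f) * (a * f) * f := by rw [fa.eq, fw.eq]
      _ = a * w * (f * a) * f * f := by group
      _ = a * w * a * f ^ 3 := by rw [fa.eq]; simp only [pow_succ, pow_zero, one_mul, mul_assoc]
  have e2 : w' * a' * w' = w * a * w * f ^ 3 := by
    rw [hfa, hfw]
    calc w * f * (a * f) * (w * f) = w * (f * a) * (f * w) * f := by group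
      _ = w * (a * f) * (w * f) * f := by rw [fa.eq, fw.eq]
      _ = w * a * (f * w) * f * f := by group
      _ = w * a * w * f ^ 3 := by rw [fw.eq]; simp only [pow_succ, pow_zero, one_mul, mul_assoc]
  have awa : a * w * a = w * a * w := by
    rw [e1, e2] at h1
    exact mul_right_cancel h1
  -- action of f on the conjugates
  have ftz : ∀ i : ℤ, f⁻¹ * t ^ i * f = t ^ (2 * i) := by
    intro i
    have : f⁻¹ * t ^ i * f = (f⁻¹ * t * f) ^ i := by
      have := conj_zpow (i := i) (a := f⁻¹) (b := t)
      rw [inv_inv] at this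
      exact this.symm
    rw [this, h2, zpow_mul]
    norm_num
  have fcj : ∀ i : ℤ, f⁻¹ * cj a t i * f = cj a t (2 * i) := by
    intro i
    unfold cj
    have q1 := ftz (-i)
    have q2 := ftz i
    have q3 : f⁻¹ * a * f = a := by
      rw [mul_assoc, ← fa.eq]; group
    calc f⁻¹ * (t ^ (-i) * a * t ^ i) * f
        = (f⁻¹ * t ^ (-i) * f) * (f⁻¹ * a * f) * (f⁻¹ * t ^ i * f) := by group
      _ = _ := by rw [q1, q2, q3]; congr 2; congr 1; ring
  -- third relation
  set τ := (w * a)⁻¹ * t * (w * a) with hτ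
  have hl : (t ^ l)⁻¹ * a * t ^ l = cj a t l := by
    unfold cj; rw [zpow_neg, zpow_natCast]
  have h3' : τ = (cj a t l)⁻¹ * t ^ (-(e : ℤ)) := by
    rw [hl] at h3
    rw [h3, zpow_neg, zpow_natCast]
  have hτf : f⁻¹ * τ * f = τ ^ 2 := by
    have fwa : Commute f (w * a) := fw.mul_right fa
    have q1 : f⁻¹ * (w * a)⁻¹ = (w * a)⁻¹ * f⁻¹ := by
      rw [← mul_inv_rev, ← mul_inv_rev, fwa.eq]
    calc f⁻¹ * ((w * a)⁻¹ * t * (w * a)) * f
        = (f⁻¹ * (w * a)⁻¹) * t * ((w * a) * f) := by group
      _ = (w * a)⁻¹ * (f⁻¹ * t * f) * (w * a) := by rw [q1, ← fwa.eq]; group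
      _ = (w * a)⁻¹ * t ^ 2 * (w * a) := by rw [h2]
      _ = _ := by rw [hτ, pow_two, pow_two]; group
  have r1 : cj a t (2 * l) = cj a t (l + e) * cj a t l := by
    have q1 : f⁻¹ * τ * f = (cj a t (2 * l))⁻¹ * t ^ (2 * (-(e : ℤ))) := by
      rw [h3']
      calc f⁻¹ * ((cj a t l)⁻¹ * t ^ (-(e : ℤ))) * f
          = (f⁻¹ * cj a t l * f)⁻¹ * (f⁻¹ * t ^ (-(e : ℤ)) * f) := by group
        _ = _ := by rw [fcj, ftz]
    have q2 : τ ^ 2 = (cj a t l)⁻¹ * (cj a t (l + e))⁻¹ * t ^ (2 * (-(e : ℤ))) := by
      rw [h3', ← cj_conj, pow_two]; group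
    rw [q1, q2] at hτf
    have q3 := mul_right_cancel hτf
    rw [← mul_inv_rev] at q3
    exact inv_injective q3
  have r2 : cj a t l = cj a t e * a := by
    have q1 := congrArg (fun g => t ^ (-(-(l : ℤ))) * g * t ^ (-(l : ℤ))) r1
    have q2 : t ^ (-(-(l : ℤ))) * (cj a t (l + e) * cj a t l) * t ^ (-(l : ℤ)) =
      (t ^ (-(-(l : ℤ))) * cj a t (l + e) * t ^ (-(l : ℤ))) *
      (t ^ (-(-(l : ℤ))) * cj a t l * t ^ (-(l : ℤ))) := by group
    simp only [q2, cj_conj] at q1
    rw [show (2 * (l : ℤ) + -(l : ℤ)) = l by ring, show ((l : ℤ) + e + -(l : ℤ)) = e by ring,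
      show ((l : ℤ) + -(l : ℤ)) = 0 by ring, cj_zero] at q1
    exact q1
  have r3 : cj a t (2 * l) = cj a t (2 * e) * a := by
    rw [← fcj, r2]
    calc f⁻¹ * (cj a t e * a) * f = (f⁻¹ * cj a t e * f) * (f⁻¹ * (a * f)) := by group
      _ = _ := by rw [fcj, ← fa.eq]; group
  have r4 : cj a t (l + e) = cj a t (2 * e) * cj a t e := by
    rw [← cj_conj, r2]
    have : t ^ (-(e : ℤ)) * (cj a t e * a) * t ^ (e : ℤ) =
      (t ^ (-(e : ℤ)) * cj a t e * t ^ (e : ℤ)) * (t ^ (-(e : ℤ)) * a * t ^ (e : ℤ)) := by group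
    rw [this, cj_conj, two_mul]
    rfl
  have r5 : cj a t e * cj a t e = 1 := by
    rw [r3, r4, r2] at r1
    have q : cj a t (2 * e) * a = cj a t (2 * e) * (cj a t e * cj a t e * a) := by
      rw [r1]; group
    have q' := mul_left_cancel q
    exact (mul_eq_right.1 q'.symm)
  have aa : a * a = 1 := by
    unfold cj at r5
    have : t ^ (-(e : ℤ)) * (a * a) * t ^ (e : ℤ) = 1 := by rw [← r5]; group
    have q : a * a = t ^ (e : ℤ) * (t ^ (-(e : ℤ)) * (a * a) * t ^ (e : ℤ)) * t ^ (-(e : ℤ)) := by
      group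
    rw [q, this]; group
  have ww : w * w = 1 := by
    have q : w = (a * w) * a * (a * w)⁻¹ := by
      rw [eq_mul_inv_iff_mul_eq, ← mul_assoc, ← awa]
    rw [q]
    calc (a * w) * a * (a * w)⁻¹ * ((a * w) * a * (a * w)⁻¹) = (a * w) * (a * a) * (a * w)⁻¹ := by
          group
      _ = 1 := by rw [aa]; group
  have aw3 : (a * w) ^ 3 = 1 := by
    calc (a * w) ^ 3 = (a * w * a) * (w * a * w) := by
          simp only [pow_succ, pow_zero, one_mul, mul_assoc]
      _ = (a * w * a) * (a * w * a) := by rw [awa]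
      _ = a * w * (a * a) * w * a := by group
      _ = a * (w * w) * a := by rw [aa]; group
      _ = 1 := by rw [ww, mul_one, aa]
  have c6 : c = f ^ (6 : ℤ) := by
    have q1 : a' * w' = (a * w) * f ^ (2 : ℤ) := by
      rw [hfa, hfw]
      calc a * f * (w * f) = a * (f * w) * f := by group
        _ = a * (w * f) * f := by rw [fw.eq]
        _ = _ := by rw [zpow_ofNat, pow_two]; group
    have q2 : Commute (a * w) (f ^ (2 : ℤ)) :=
      ((fa.mul_right fw).zpow_left 2).symm
    rw [hc, q1, q2.mul_pow, aw3, one_mul, ← zpow_natCast, ← zpow_mul]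
    norm_num
  have f6 : f ^ (6 * k - 1) = 1 := by
    have q : f = f ^ (6 * k) := by
      rw [zpow_mul, ← c6]; exact hphi
    rw [zpow_sub, ← q, zpow_one, mul_inv_cancel]
  have fn : f ^ n = 1 := by
    rcases Int.natAbs_eq (6 * k - 1) with hh | hh
    · rw [hh, hk, zpow_natCast] at f6
      exact f6
    · rw [hh, hk, zpow_neg, zpow_natCast, inv_eq_one] at f6
      exact f6
  have tN : t ^ (2 ^ n - 1) = 1 := by
    have q : ∀ m : ℕ, (f ^ m)⁻¹ * t * f ^ m = t ^ (2 ^ m) := by
      intro m
      induction m with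
      | zero => simp
      | succ m ih =>
        calc (f ^ (m + 1))⁻¹ * t * f ^ (m + 1) = f⁻¹ * ((f ^ m)⁻¹ * t * f ^ m) * f := by
              rw [pow_succ]; group
          _ = f⁻¹ * t ^ (((2 ^ m : ℕ)) : ℤ) * f := by rw [ih, zpow_natCast]
          _ = t ^ (2 ^ (m + 1)) := by
            rw [ftz, pow_succ, mul_comm (2 ^ m), ← zpow_natCast]; push_cast; rfl
    have q1 := q n
    rw [fn] at q1
    have q2 : t ^ (2 ^ n - 1) * t = t := by
      rw [← pow_succ, Nat.sub_add_cancel Nat.one_le_two_pow, ← q1]; simp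
    exact mul_eq_right.1 q2
  have wi : w⁻¹ = w := inv_eq_of_mul_eq_one_left ww
  have ai : a⁻¹ = a := inv_eq_of_mul_eq_one_left aa
  have wt0 : w * t * w = t ^ (-(e : ℤ)) := by
    have q1 : τ = a * (w * t * w) * a := by
      rw [hτ, mul_inv_rev, wi, ai]; group
    have q2 : w * t * w = a * τ * a := by
      rw [q1]
      calc w * t * w = 1 * (w * t * w) * 1 := by group
        _ = _ := by rw [← aa]; group
    rw [q2, h3', r2]
    have q3 : a * ((cj a t e * a)⁻¹ * t ^ (-(e : ℤ))) * a =
        a * a⁻¹ * (cj a t e)⁻¹ * (t ^ (-(e : ℤ)) * a * t ^ (e : ℤ)) * t ^ (-(e : ℤ)) := by group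
    rw [q3]
    change a * a⁻¹ * (cj a t e)⁻¹ * (cj a t e) * t ^ (-(e : ℤ)) = _
    group
  have te2 : t ^ (e ^ 2 - 1) = 1 := by
    have q1 : w * t ^ (-(e : ℤ)) * w = t := by
      rw [← wt0]
      calc w * (w * t * w) * w = (w * w) * t * (w * w) := by group
        _ = t := by rw [ww]; group
    have q2 : w * t ^ (-(e : ℤ)) * w = (w * t * w) ^ (-(e : ℤ)) := by
      have := conj_zpow (i := -(e : ℤ)) (a := w) (b := t)
      rw [wi] at this
      exact this.symm
    rw [q2, wt0, ← zpow_mul] at q1
    have q3 : (-(e : ℤ)) * (-(e : ℤ)) = ((e ^ 2 - 1 : ℕ) : ℤ) + 1 := by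
      have : 1 ≤ e ^ 2 := Nat.one_le_pow _ _ he
      rw [Nat.cast_sub this]; push_cast; ring
    rw [q3, zpow_add, zpow_one, zpow_natCast] at q1
    exact mul_eq_right.1 q1
  have tM : t ^ M = 1 := by
    rw [← hM]
    exact pow_gcd_eq_one.2 ⟨tN, te2⟩
  have te : t ^ (e : ℤ) = t := by
    rw [zpow_natCast]
    have h5 : t ^ e = t ^ 1 := by
      apply pow_eq_pow_iff_modEq.2
      exact heM.of_dvd (orderOf_dvd_of_pow_eq_one tM)
    rw [h5, pow_one]
  refine ⟨aa, ww, awa, fa.eq, fw.eq, fn, h2, tM, ?_, ?_⟩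
  · rw [wt0, zpow_neg, te]
  · rw [r2]
    unfold cj
    rw [zpow_neg, te, zpow_neg, zpow_one]

section hexagon

/-- the hexagon induction -/
theorem hexagon (P : ℤ → ℤ → Prop) (h0 : P 0 0) (h1 : P 1 0)
    (hneg : ∀ i j, P i j → P (-i) (-j))
    (ha : ∀ i j, P i j → P (i + 1) j → P i (j + 1))
    (hb : ∀ i j, P i j → P i (j + 1) → P (i + 1) j)
    (hc : ∀ i j, P (i + 1) j → P i (j + 1) → P i j) : ∀ i j, P i j := by
  have key : ∀ m : ℕ, ∀ i j : ℤ, -(m : ℤ) ≤ i → i ≤ m → -(m : ℤ) ≤ j → j ≤ m →
      -(m : ℤ) ≤ i + j → i + j ≤ m → P i j := by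
    have hex1 : ∀ i j : ℤ, -(1 : ℤ) ≤ i → i ≤ 1 → -(1 : ℤ) ≤ j → j ≤ 1 →
        -(1 : ℤ) ≤ i + j → i + j ≤ 1 → P i j := by
      have p01 : P 0 1 := ha 0 0 h0 h1
      have m10 : P (-1) 0 := by simpa using hneg _ _ h1
      have m01 : P 0 (-1) := by simpa using hneg _ _ p01
      have p1m : P 1 (-1) := hb 0 (-1) m01 (by simpa using h0)
      have m1p : P (-1) 1 := by simpa using hneg _ _ p1m
      intro i j hi1 hi2 hj1 hj2 hs1 hs2
      have hi : i = -1 ∨ i = 0 ∨ i = 1 := by omega
      have hj : j = -1 ∨ j = 0 ∨ j = 1 := by omega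
      rcases hi with rfl | rfl | rfl <;> rcases hj with rfl | rfl | rfl <;>
        first | assumption | (exfalso; omega)
    intro m
    induction m with
    | zero =>
      intro i j hi1 hi2 hj1 hj2 _ _
      have hi : i = 0 := by omega
      have hj : j = 0 := by omega
      rw [hi, hj]; exact h0
    | succ m ih =>
      rcases Nat.eq_zero_or_pos m with hm0 | hm0
      · subst hm0
        intro i j hi1 hi2 hj1 hj2 hs1 hs2
        exact hex1 i j (by omega) (by omega) (by omega) (by omega) (by omega) (by omega)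
      · have A : ∀ i : ℤ, -(m : ℤ) ≤ i → i ≤ -1 → P i (m + 1) := fun i hi1 hi2 =>
          ha i m (ih _ _ (by omega) (by omega) (by omega) (by omega) (by omega) (by omega))
            (ih _ _ (by omega) (by omega) (by omega) (by omega) (by omega) (by omega))
        have B : ∀ j : ℤ, -(m : ℤ) ≤ j → j ≤ -1 → P (m + 1) j := fun j hj1 hj2 =>
          hb m j (ih _ _ (by omega) (by omega) (by omega) (by omega) (by omega) (by omega))
            (ih _ _ (by omega) (by omega) (by omega) (by omega) (by omega) (by omega))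
        have C : ∀ i j : ℤ, i + j = -(m + 1) → -(m : ℤ) ≤ i → i ≤ -1 → P i j :=
          fun i j hij hi1 hi2 =>
          hc i j (ih _ _ (by omega) (by omega) (by omega) (by omega) (by omega) (by omega))
            (ih _ _ (by omega) (by omega) (by omega) (by omega) (by omega) (by omega))
        have A' : ∀ i j : ℤ, j = -(m + 1) → 1 ≤ i → i ≤ m → P i j := by
          intro i j hj hi1 hi2
          have := hneg _ _ (A (-i) (by omega) (by omega))
          rw [neg_neg] at this
          rw [hj]; exact this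
        have B' : ∀ i j : ℤ, i = -(m + 1) → 1 ≤ j → j ≤ m → P i j := by
          intro i j hi hj1 hj2
          have := hneg _ _ (B (-j) (by omega) (by omega))
          rw [neg_neg] at this
          rw [hi]; exact this
        have C' : ∀ i j : ℤ, i + j = m + 1 → 1 ≤ i → i ≤ m → P i j := by
          intro i j hij hi1 hi2
          have := hneg _ _ (C (-i) (-j) (by omega) (by omega) (by omega))
          rw [neg_neg, neg_neg] at this
          exact this
        have c1 : P (m + 1) 0 := hb m 0 (ih _ _ (by omega) (by omega) (by omega) (by omega)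
          (by omega) (by omega)) (C' _ _ (by omega) (by omega) (by omega))
        have c2 : P 0 (m + 1) := ha 0 m (ih _ _ (by omega) (by omega) (by omega) (by omega)
          (by omega) (by omega)) (C' _ _ (by omega) (by omega) (by omega))
        have c3 : P (m + 1) (-(m + 1)) := hb m (-(m + 1)) (A' _ _ rfl (by omega) (by omega))
          (ih _ _ (by omega) (by omega) (by omega) (by omega) (by omega) (by omega))
        have c1' : ∀ i j : ℤ, i = -(m + 1) → j = 0 → P i j := by
          intro i j hi hj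
          have := hneg _ _ c1
          rw [neg_zero] at this
          rw [hi, hj]; exact this
        have c2' : ∀ i j : ℤ, i = 0 → j = -(m + 1) → P i j := by
          intro i j hi hj
          have := hneg _ _ c2
          rw [neg_zero] at this
          rw [hi, hj]; exact this
        have c3' : ∀ i j : ℤ, i = -(m + 1) → j = m + 1 → P i j := by
          intro i j hi hj
          have := hneg _ _ c3
          rw [neg_neg] at this
          rw [hi, hj]; exact this
        intro i j hi1 hi2 hj1 hj2 hs1 hs2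
        push_cast at hi1 hi2 hj1 hj2 hs1 hs2
        by_cases q1 : i = m + 1
        · by_cases q2 : j = 0
          · rw [q1, q2]; exact c1
          · by_cases q3 : j = -(m + 1)
            · rw [q1, q3]; exact c3
            · rw [q1]; exact B j (by omega) (by omega)
        by_cases q2 : j = m + 1
        · by_cases q3 : i = 0
          · rw [q2, q3]; exact c2
          · by_cases q4 : i = -(m + 1)
            · exact c3' i j q4 q2
            · rw [q2]; exact A i (by omega) (by omega)
        by_cases q3 : i = -(m + 1)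
        · by_cases q4 : j = 0
          · exact c1' i j q3 q4
          · exact B' i j q3 (by omega) (by omega)
        by_cases q4 : j = -(m + 1)
        · by_cases q5 : i = 0
          · exact c2' i j q5 q4
          · exact A' i j q4 (by omega) (by omega)
        by_cases q5 : i + j = m + 1
        · exact C' i j q5 (by omega) (by omega)
        by_cases q6 : i + j = -(m + 1)
        · exact C i j q6 (by omega) (by omega)
        exact ih i j (by omega) (by omega) (by omega) (by omega) (by omega) (by omega)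
  intro i j
  exact key (i.natAbs + j.natAbs) i j (by omega) (by omega) (by omega) (by omega) (by omega)
    (by omega)

/-- all conjugates of `a` by powers of `t` commute -/
theorem Good.comm {n M l : ℕ} {a w t f : G} (h : Good n M l a w t f) (i : ℤ) :
    Commute a (cj a t i) := by
  -- squares
  have sq : ∀ i : ℤ, cj a t i * cj a t i = 1 := by
    intro i
    unfold cj
    calc t ^ (-i) * a * t ^ i * (t ^ (-i) * a * t ^ i) = t ^ (-i) * (a * a) * t ^ i := by group
      _ = 1 := by rw [h.aa]; group
  have c1 : Commute a (cj a t 1) := by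
    have e1 := sq l
    rw [h.al] at e1
    have i1 : (cj a t 1)⁻¹ = cj a t 1 := inv_eq_of_mul_eq_one_left (sq 1)
    have ia : a⁻¹ = a := inv_eq_of_mul_eq_one_left h.aa
    change a * cj a t 1 = cj a t 1 * a
    have e2 := inv_eq_of_mul_eq_one_left e1
    rw [mul_inv_rev, i1, ia] at e2
    exact e2
  -- the relation a_{i+l} = a_{i+1} a_i
  have rel : ∀ i : ℤ, cj a t (i + l) = cj a t (i + 1) * cj a t i := by
    intro i
    rw [add_comm i l, ← cj_conj, h.al, add_comm i 1, ← cj_conj a t 1 i]
    unfold cj; group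
  have hconj : ∀ i j : ℤ, Commute a (cj a t i) → Commute (cj a t j) (cj a t (i + j)) := by
    intro i j hij
    rw [← cj_conj]
    change _ * _ = _ * _
    have e := hij.eq
    calc cj a t j * (t ^ (-j) * cj a t i * t ^ j) = t ^ (-j) * (a * cj a t i) * t ^ j := by
          unfold cj; group
      _ = t ^ (-j) * (cj a t i * a) * t ^ j := by rw [e]
      _ = _ := by unfold cj; group
  have key := hexagon (fun i j => Commute a (cj a t (i + l * j)))
    (by simpa [cj_zero] using Commute.refl a) (by simpa using c1)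
    (by
      intro i j hij
      have := hconj _ (-(i + l * j)) hij
      rw [add_neg_cancel, cj_zero] at this
      have e : -i + (l : ℤ) * -j = -(i + l * j) := by ring
      rw [e]; exact this.symm)
    (by
      intro i j h1 h2
      have e : i + (l : ℤ) * (j + 1) = (i + l * j) + l := by ring
      have e2 : i + 1 + (l : ℤ) * j = (i + l * j) + 1 := by ring
      rw [e, rel]
      rw [e2] at h2
      exact h2.mul_right h1)
    (by
      intro i j h1 h2
      have e : i + (l : ℤ) * (j + 1) = (i + l * j) + l := by ring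
      have e2 : i + 1 + (l : ℤ) * j = (i + l * j) + 1 := by ring
      rw [e] at h2
      rw [e2]
      have : cj a t (i + l * j + 1) = cj a t (i + l * j + l) * cj a t (i + l * j) := by
        rw [rel, mul_assoc, sq, mul_one]
      rw [this]
      exact h2.mul_right h1)
    (by
      intro i j h1 h2
      have e : i + (l : ℤ) * (j + 1) = (i + l * j) + l := by ring
      have e2 : i + 1 + (l : ℤ) * j = (i + l * j) + 1 := by ring
      rw [e] at h2
      rw [e2] at h1
      have : cj a t (i + l * j) = cj a t (i + l * j + 1) * cj a t (i + l * j + l) := by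
        rw [rel, ← mul_assoc, sq, one_mul]
      rw [this]
      exact h1.mul_right h2)
  have := key i 0
  simp only [mul_zero, add_zero] at this
  exact this

end hexagon

end Pool.Agent.Helper46.DZ2
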