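import Mathlib
import Pool.Agent.Helper41.DZ.Defs

/-! Project DZ2 (MP_b3ce06_al): for every prime `n ≥ 5` the group `PSL(2, 2^n)` is a composition
factor of a finite group of deficiency zero.  Definitions and statements of the modules, with
complete proofs in the docstrings. -/

set_option autoImplicit false

namespace Pool.Agent.Helper46.DZ2

open Polynomial

/-- The word `φ = ((a w)^3)^k`. -/
def phiW {G : Type} [Group G] (k : ℤ) (a w : G) : G := ((a * w) ^ 3) ^ k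

/-- The three relations of the presentation: with `φ = ((a w)^3)^k`, `a₀ = a φ⁻¹`, `w₀ = w φ⁻¹`,
`a w a = w a w`, `φ⁻¹ t φ = t²`, `(w₀ a₀)⁻¹ t (w₀ a₀) = (t^{-l} a₀ t^l)⁻¹ t^{-e}`. -/
def Rel3 {G : Type} [Group G] (k : ℤ) (e l : ℕ) (a w t : G) : Prop :=
  a * w * a = w * a * w ∧
  (phiW k a w)⁻¹ * t * phiW k a w = t ^ 2 ∧
  (w * (phiW k a w)⁻¹ * (a * (phiW k a w)⁻¹))⁻¹ * t * (w * (phiW k a w)⁻¹ * (a * (phiW k a w)⁻¹)) =
    ((t ^ l)⁻¹ * (a * (phiW k a w)⁻¹) * t ^ l)⁻¹ * (t ^ e)⁻¹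

/-- A system `E : L → G` (additive to multiplicative), `w` with `w² = 1` and
`E 1 * (w * E 1 * w) * E 1 = w`. -/
structure Sys (L : Type) [CommRing L] (G : Type) [Group G] where
  E : L → G
  w : G
  add : ∀ a b, E (a + b) = E a * E b
  ww : w * w = 1
  br : E 1 * (w * E 1 * w) * E 1 = w

namespace Sys

variable {L : Type} [CommRing L] {G : Type} [Group G] (S : Sys L G)

/-- The opposite root group. -/
def F (a : L) : G := S.w * S.E a * S.w

/-- `g` acts on the root groups like `diag(y, y⁻¹)`. -/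
def IsTor (y : Lˣ) (g : G) : Prop :=
  (∀ a : L, g * S.E a * g⁻¹ = S.E ((y : L) ^ 2 * a)) ∧
  (∀ a : L, g * S.F a * g⁻¹ = S.F (((y⁻¹ : Lˣ) : L) ^ 2 * a))

/-- The root groups have trivial centralizer. -/
def Cent : Prop :=
  ∀ g : G, (∀ a, g * S.E a = S.E a * g) → (∀ a, g * S.F a = S.F a * g) → g = 1

/-- The group is generated by the root group and `w`. -/
def Gen : Prop := Subgroup.closure (Set.range S.E ∪ {S.w}) = ⊤

end Sys

/-- The properties of the finite ring `L = F_2[x]` which are used. -/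
structure Rg (L : Type) [CommRing L] (n M l : ℕ) (x : Lˣ) : Prop where
  fin : Finite L
  two : ∀ a : L, a + a = 0
  n0 : 0 < n
  frob : ∀ a : L, a ^ (2 ^ n) = a
  M1 : 1 < M
  xM : x ^ M = 1
  xl : (1 : L) + (x : L) = (x : L) ^ l
  span : AddSubgroup.closure (Set.range (fun i : ℕ => (x : L) ^ i)) = ⊤
  unit : ∀ c : ℕ, ¬ M ∣ c → IsUnit (1 + (x : L) ^ c)
  bad : ∀ A B C D : L, A * C + B * D = 1 →
    5 * Nat.card {b : Fin M // ¬ IsUnit (A + (x : L) ^ (b : ℕ) * B)} < M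
  phi : 6 * (M - M.totient) < M

/-- MODULE C (ring combinatorics; no group `G` here).  `Y` is a subgroup of `Lˣ` containing `x` and
closed under the rule (C): if `d, z, 1+z, 1+dz ∈ Y`, `1+d` is a unit and the powers of `z` span `L`
additively, then `1+d ∈ Y`.  Then `Y = ⊤`.

PROOF.  All exponents of `x` are taken mod `M` (use that `x` is a unit with `x^M = 1`; integer
exponents `x^c`, `c : ℤ`, or `c : ZMod M` are convenient).  For `gcd(j, M) = 1` the powers of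
`x^j` are the powers of `x`, so they span.
(7) `1 + x^c ∈ Y` for all `c ≢ 0`: induction on `c = 1, …, M-1`: `1+x = x^l ∈ Y`; step: (C) with
`d = x^{c+1}`, `z = x⁻¹` (`1+z = x⁻¹(1+x)`, `1+dz = 1+x^c`).
(8) If `P ∈ Y`, `1 + x^b P ∈ Y` for SOME `b`, then `1 + x^c P ∈ Y` for ALL `c` for which it is a
unit.  If `gcd(c-b, M) = 1`: (C) with `d = x^c P`, `z = x^{b-c}` (`1+z ∈ Y` by (7), `dz = x^b P`).
In general choose `c₁ ∈ Z/M` with `gcd(c₁-b,M) = gcd(c-c₁,M) = 1` and `1+x^{c₁}P` a unit: excluded are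
at most `2(M-φ(M)) + bad < M/3 + M/5 < M` values (`bad` with `A = 1, B = P, C = 1, D = 0`).
Call such `P` GOOD (`P ∈ Y` and `∃ b, 1 + x^b P ∈ Y`).
(9) If `P` is good and `Q = x^a + P` is a unit then `Q` is good.  First `Q = x^a(1+x^{-a}P) ∈ Y` by
(8).  Claim: for `m ≢ 0`: `1 + x^m + x^c P ∈ Y` for all `c` for which it is a unit.  Choose `d` such
that `1 + x^d P`, `x^l + x^d P`, `1 + x^m + x^d P` are units (each excludes `< M/5` values of `d`, by
`bad`; for the third: `A = 1+x^m` is a unit).  `R = 1 + x^d P ∈ Y` by (8); `x^l + x^d P =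
x^l(1+x^{d-l}P) ∈ Y` by (8), and it is `x + R = x (1 + x⁻¹ R)`, so `R` is good; hence by (8) for `R`,
`x^m + R ∈ Y`, i.e. `1 + x^m + x^d P ∈ Y`, i.e. `P' = P/(1+x^m) ∈ Y` is good
(`1 + x^d P' = (1+x^m+x^d P)/(1+x^m)`, `1+x^m ∈ Y` by (7)); by (8) for `P'` the claim follows.
Now choose `b ≢ -a` with `1 + x^b Q` a unit (`bad` and `M ≥ 2`, so `bad + 1 < M`: note
`5 bad < M`; if `M = 2,3,4,5` then `bad = 0`), then `1 + x^b Q = 1 + x^{a+b} + x^b P ∈ Y` by the
claim, so `Q` is good.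
(10) For all `A : L`: every unit of the form `A + x^b` is good.  Induction on the length of `A` as a
sum of powers of `x` (`span`, `AddSubgroup.closure_induction` or a list): `A = 0`: (7).  Step
`A + x^d`: let `V = A + x^d + x^b` be a unit.  Choose `b'` with `A + x^{b'}`, `A + x^b + x^{b'}`,
`V + x^{b'}` units (each excludes `< M/5`, `bad` with `B = 1`).  `A + x^{b'}` is good by induction,
then by (9) `A + x^{b'} + x^b`, then `A + x^{b'} + x^b + x^d = V + x^{b'}`, then `V` are good.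
Every unit `u` is `(u + 1) + x^0`.  Hence `Y = ⊤`. -/
def StC : Prop :=
  ∀ (L : Type) [CommRing L] (n M l : ℕ) (x : Lˣ), Rg L n M l x →
    ∀ Y : Subgroup Lˣ, x ∈ Y →
      (∀ d z e1 e2 e3 : Lˣ, d ∈ Y → z ∈ Y → e1 ∈ Y → e2 ∈ Y →
        (e1 : L) = 1 + (z : L) → (e2 : L) = 1 + (d : L) * (z : L) → (e3 : L) = 1 + (d : L) →
        AddSubgroup.closure (Set.range (fun i : ℕ => (z : L) ^ i)) = ⊤ → e3 ∈ Y) →
      Y = ⊤

/-- (own module) closure rule for the torus. -/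
def StClose : Prop :=
  ∀ (L : Type) [CommRing L] (G : Type) [Group G] (S : Sys L G) (n : ℕ), 0 < n →
    (∀ a : L, a + a = 0) → (∀ a : L, a ^ (2 ^ n) = a) → S.Cent →
    ∀ d z e1 e2 e3 : Lˣ, (∃ g, S.IsTor d g) → (∃ g, S.IsTor z g) → (∃ g, S.IsTor e1 g) →
      (∃ g, S.IsTor e2 g) →
      (e1 : L) = 1 + (z : L) → (e2 : L) = 1 + (d : L) * (z : L) → (e3 : L) = 1 + (d : L) →
      AddSubgroup.closure (Set.range (fun i : ℕ => (z : L) ^ i)) = ⊤ → ∃ g, S.IsTor e3 g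

/-- (own module) finiteness when the torus is full. -/
def StD : Prop :=
  ∀ (L : Type) [CommRing L] (G : Type) [Group G] (S : Sys L G) (n M l : ℕ) (x : Lˣ),
    Rg L n M l x → S.Cent → S.Gen → (∀ y : Lˣ, ∃ g, S.IsTor y g) → Finite G

/-- finiteness, centreless case -/
def StFinC : Prop :=
  ∀ (L : Type) [CommRing L] (G : Type) [Group G] (S : Sys L G) (n M l : ℕ) (x : Lˣ),
    Rg L n M l x → S.Cent → S.Gen → (∃ g, S.IsTor x g) → Finite G

/-- finiteness, general case -/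
def StFin : Prop :=
  ∀ (L : Type) [CommRing L] (G : Type) [Group G] (S : Sys L G) (n M l : ℕ) (x : Lˣ),
    Rg L n M l x → S.Gen → (∃ g, S.IsTor x g) → Finite G

/-- MODULE RED (Grün's lemma and Schur's theorem).

PROOF.  `G` is perfect: with `g` over `x`, `g E(a) g⁻¹ E(a)⁻¹ = E(x² a + a) = E((1+x)² a)`
(`E(a)⁻¹ = E(a)` since `a + a = 0`), and `1 + x` is a unit (`Rg.unit` with `c = 1`, `M > 1`; or `xl`),
so every `E(a)` is a commutator, so is `F(a) = w E(a) w` (`w⁻¹ = w`), and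
`w = E(1) F(1) E(1)` by `br`; by `Gen` the commutator subgroup is `⊤`.
Let `Z = center G`, `Γ = G ⧸ Z`, and `S'` the image of `S` in `Γ`.  `S'.Gen` and
`∃ g, S'.IsTor x g` are clear.  `S'.Cent`: let `g ∈ G` commute modulo `Z` with all `E(a), F(a)`,
hence (as `w = E(1)F(1)E(1)`) with `w`, hence with all of `G` modulo `Z` (`Gen`).  Then
`h ↦ [g, h] ∈ Z` is a homomorphism `G → Z` to an abelian group (Grün), so it is trivial on the
commutator subgroup `⊤`; hence `g ∈ Z`.  By `StFinC`, `Γ = G/Z` is finite, i.e. `Z` has finite index;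
so the commutator subgroup of `G` is finite (Schur; Mathlib.GroupTheory.Schreier has it from
finiteness of the set of commutators, and `[g,h]` depends only on the cosets of `g, h` mod `Z`), and
it is `⊤`. -/
def StRed : Prop := StFinC → StFin

/-- The ring `F_2[X] / (X^M - 1, X^l + X + 1)`. -/
abbrev Lam (M l : ℕ) : Type :=
  (ZMod 2)[X] ⧸ (Ideal.span {(X : (ZMod 2)[X]) ^ M - 1, (X : (ZMod 2)[X]) ^ l + X + 1})

/-- MODULE RING.

PROOF.  `L = Lam M l`, `x` = class of `X` (a unit: `x^M = 1`).  Finite: spanned over `F_2` by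
`x^i`, `i < M` (or it is a quotient of the finite ring `F_2[X]/(X^M-1)`).  `a + a = 0` clear.
`frob`: `a = Σ_{i ∈ I} x^i`, in characteristic 2 `a^{2^n} = Σ x^{i 2^n} = a`, as `M ∣ 2^n - 1`.
`span`: clear (additive closure, coefficients in `ZMod 2`).  `xl`: `x^l + x + 1 = 0`.
UNIT CRITERION: let `K = GaloisField 2 n`, `R = {y : K | y^M = 1 ∧ 1 + y = y^l}`.  If `P ∈ F_2[X]`
and `P(y) ≠ 0` for all `y ∈ R` then the class of `P` is a unit: otherwise the ideal
`(P, X^M-1, X^l+X+1)` is proper, contained in `(q)` with `q` irreducible; `q ∣ X^M - 1` which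
divides `X^(2^n) - X` (up to the factor `X`), which splits in `K`; so `q` has a root `y ∈ K`, `y ∈ R`
and `P(y) = 0`.
`unit`: `P = 1 + X^c`, `P(y) = 0` gives `y^c = 1`, so `M = orderOf y ∣ c`.
`bad`: lift `A, B, C, D` to polynomials; evaluation at `y ∈ R` is a ring homomorphism
`ev_y : L → K` (kills both generators), and `A + x^b B` not a unit implies
`ev_y(A) + y^b ev_y(B) = 0` for some `y ∈ R`.  Given `y`, at most one `b ∈ {0..M-1}` does this: if
`ev_y(B) = 0` then `ev_y(A) = 0`, contradicting `AC+BD = 1`; else `y^b` is determined and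
`orderOf y = M`.  If `b` works for `y` it works for `y²` (`ev_{y²}(P) = ev_y(P)²` for
`P ∈ F_2[X]`), hence for the `n` distinct elements `y^{2^i}`, `i < n` (distinct as `n` is prime and
`y ≠ 0, 1`: if `y^{2^i} = y^{2^j}`, `i<j<n`, then `y^{2^{j-i}} = y`, with `gcd(j-i,n) = 1` and
`y^{2^n} = y` this gives `y² = y`).  So `n * #bad ≤ #R ≤ M - 1` (`R` is contained in the roots of
`X^M - 1` other than `1`; `1 ∉ R` since `1 + 1 = 0 ≠ 1`), so `5 * #bad ≤ M - 1 < M`. -/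
def StRing : Prop :=
  ∀ n M l : ℕ, n.Prime → 5 ≤ n → 1 < M → M ∣ 2 ^ n - 1 → 6 * (M - M.totient) < M →
    (∀ y : GaloisField 2 n, y ^ M = 1 → 1 + y = y ^ l → orderOf y = M) →
    ∃ x : (Lam M l)ˣ,
      (x : Lam M l) = Ideal.Quotient.mk
        (Ideal.span {(X : (ZMod 2)[X]) ^ M - 1, (X : (ZMod 2)[X]) ^ l + X + 1}) X ∧
      Rg (Lam M l) n M l x

/-- MODULE NUM (choice of the parameters).

PROOF.  `K = GaloisField 2 n` has `2^n` elements, `N = 2^n - 1`, `Kˣ` is cyclic of order `N`.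
Consider the `x ∈ K`, `x ≠ 0`, with `1 + x = x^l` for some `l` (`l : ℕ`); exists: a generator `x` of
`Kˣ` (`x ≠ 1` as `N > 1`, so `1 + x ≠ 0`).  Choose `x` with `M = orderOf x` minimal.  `M ∣ N`;
`M > 1` since `x = 1` gives `0 = 1`.  If `y^M = 1` and `1 + y = y^l` then `y ≠ 0` and
`orderOf y ∣ M`, and `orderOf y ≥ M` by minimality.
Every prime `p ∣ N` is `≥ 2n+1 ≥ 11`: `2^n = 1` mod `p`, so the order of `2` mod `p` is `n` (it is
not `1`), so `n ∣ p - 1`; `p` is odd so `2n ∣ p-1`.  The number `J` of primes dividing `M` satisfies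
`8^J < 2^n` (`M < 2^n`), so `3J < n`.  `φ(M) = M ∏ (1 - 1/p) ≥ M (1 - Σ 1/p) ≥ M(1 - J/(2n+1))`,
so `6(M - φ(M)) ≤ 6 J M/(2n+1) < M`.
`e`: let `N₁` = largest divisor of `N` coprime to `M`, `N = N₁ N₂` (`N₂` has the primes of `M`,
`M ∣ N₂`); CRT: `e ≡ 0` mod `N₁`, `e ≡ 1 + M` mod `N₂`, `e ≥ 1`.  Then `e² - 1` is coprime to `N₁`
and `≡ M (M+2)` mod `N₂`, `M` odd, so `gcd(N₂, e²-1) = M`. -/
def StNum : Prop :=
  ∀ n : ℕ, n.Prime → 5 ≤ n → ∃ (M l e : ℕ) (x : GaloisField 2 n),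
    1 < M ∧ M ∣ 2 ^ n - 1 ∧ 6 * (M - M.totient) < M ∧ orderOf x = M ∧ 1 + x = x ^ l ∧
    (∀ y : GaloisField 2 n, y ^ M = 1 → 1 + y = y ^ l → orderOf y = M) ∧
    0 < e ∧ e ≡ 1 [MOD M] ∧ Nat.gcd (2 ^ n - 1) (e ^ 2 - 1) = M

/-- MODULE TARGET.

PROOF.  `K = GaloisField 2 n`.  `T = SL(2, K) ⋊ (K ≃+* K)` (semidirect product for the action on
entries).  Let `Φ = inr Frob⁻¹`-like element with `Φ⁻¹ g Φ = Frob(g)` for `g ∈ SL(2,K)`
(`Frob(g)` entrywise squares); `Φ^n = 1`.  `a₀ = E(1) = [1 1; 0 1]`, `w₀ = [0 1; 1 0]`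
(`-1 = 1`), `s ∈ K` with `s² = x` (`s = x^(2^(n-1))`), `t = diag(s⁻¹, s)`, so
`t⁻¹ E(λ) t = E(x λ)`.  Take `a = a₀ Φ`, `w = w₀ Φ`.  `Φ` commutes with `a₀, w₀`
(entries `0, 1`), `(a₀ w₀)^3 = 1`, `a₀ w₀ a₀ = w₀ a₀ w₀`.  So `(a w)^3 = Φ^6`,
`phiW k a w = Φ^(6k) = Φ` (as `Φ^(6k-1) = 1`).  Relations: `a w a = a₀ w₀ a₀ Φ³ = w a w`;
`Φ⁻¹ t Φ = Frob(t) = t²`; `w₀⁻¹ t w₀ = t⁻¹` so `(w₀a₀)⁻¹ t (w₀a₀) = a₀ t⁻¹ a₀`, and
`a₀ t⁻¹ a₀ t = E(1) E(x) = E(1 + x) = E(x^l) = t^{-l} a₀ t^l`; `t^M = 1`, `e ≡ 1`, so `t^e = t`.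
Let `f : G →* T` with `a, w, t` in the range; then `Φ = phiW k a w`, `a₀, w₀` are in the range, hence
`E(x^i) = t^{-i} a₀ t^i`, hence `E(λ)` for all `λ ∈ K` (`F_2[x]` is a subfield of `K` different from
`F_2`, `n` prime, so it is `K`; additive span of powers of `x`), `w₀ E(λ) w₀`, hence all of
`SL(2, K)` (generated by the transvections).  `L = f⁻¹(SL(2,K)) = ker (G → T → (K ≃+* K))` is normal and
maps onto `SL(2,K)`, hence onto `PSL(2,K)`. -/
def StTarget : Prop :=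
  ∀ (n M l e : ℕ) (k : ℤ) (x : GaloisField 2 n), n.Prime → 5 ≤ n → (6 * k - 1).natAbs = n →
    1 < M → orderOf x = M → 1 + x = x ^ l → e ≡ 1 [MOD M] →
    ∃ (T : Type) (_ : Group T) (a w t : T), Rel3 k e l a w t ∧
      ∀ (G : Type) [Group G] (f : G →* T), a ∈ f.range → w ∈ f.range → t ∈ f.range →
        ∃ L : Subgroup G, L.Normal ∧
          ∃ f' : L →* Matrix.ProjectiveSpecialLinearGroup (Fin 2) (GaloisField 2 n),
            Function.Surjective f'

/-- (own module) from the relations to a finite group. -/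
def StPres : Prop :=
  StFin → ∀ (n M l e : ℕ) (k : ℤ), n.Prime → 5 ≤ n → (6 * k - 1).natAbs = n → 1 < M →
    M ∣ 2 ^ n - 1 → 0 < e → e ≡ 1 [MOD M] → Nat.gcd (2 ^ n - 1) (e ^ 2 - 1) = M →
    (∃ x : (Lam M l)ˣ,
      (x : Lam M l) = Ideal.Quotient.mk
        (Ideal.span {(X : (ZMod 2)[X]) ^ M - 1, (X : (ZMod 2)[X]) ^ l + X + 1}) X ∧
      Rg (Lam M l) n M l x) →
    ∀ (G : Type) [Group G] (a w t : G), Rel3 k e l a w t →
      Subgroup.closure {a, w, t} = ⊤ → Finite G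

end Pool.Agent.Helper46.DZ2
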