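import Pool.Agent.Helper46.DZ2.St

/-! Torus elements and the relation `E(a) F(b) = F(b/d) h_d E(a/d)`. -/

set_option autoImplicit false

namespace Pool.Agent.Helper46.DZ2

namespace Sys

variable {L : Type} [CommRing L] {G : Type} [Group G] (S : Sys L G)

theorem winv : S.w⁻¹ = S.w := inv_eq_of_mul_eq_one_left S.ww

theorem E0 : S.E 0 = 1 := by
  have h := S.add 0 0
  rw [add_zero] at h
  exact (mul_eq_left.1 h.symm)

theorem wF (a : L) : S.w * S.F a * S.w = S.E a := by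
  have h := S.ww
  calc S.w * (S.w * S.E a * S.w) * S.w = (S.w * S.w) * S.E a * (S.w * S.w) := by group
    _ = S.E a := by rw [h]; simp

theorem Fadd (a b : L) : S.F (a + b) = S.F a * S.F b := by
  have h := S.ww
  calc S.w * S.E (a + b) * S.w = S.w * S.E a * 1 * S.E b * S.w := by rw [S.add]; group
    _ = (S.w * S.E a * S.w) * (S.w * S.E b * S.w) := by rw [← h]; group

theorem F0 : S.F 0 = 1 := by
  have h := S.Fadd 0 0
  rw [add_zero] at h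
  exact (mul_eq_left.1 h.symm)

theorem EE (h2 : ∀ a : L, a + a = 0) (a : L) : S.E a * S.E a = 1 := by
  rw [← S.add, h2, S.E0]

theorem FF (h2 : ∀ a : L, a + a = 0) (a : L) : S.F a * S.F a = 1 := by
  rw [← S.Fadd, h2, S.F0]

theorem Einv (h2 : ∀ a : L, a + a = 0) (a : L) : (S.E a)⁻¹ = S.E a :=
  inv_eq_of_mul_eq_one_left (S.EE h2 a)

theorem Finv (h2 : ∀ a : L, a + a = 0) (a : L) : (S.F a)⁻¹ = S.F a :=
  inv_eq_of_mul_eq_one_left (S.FF h2 a)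

theorem br' : S.F 1 * S.E 1 * S.F 1 = S.w := by
  have h := S.ww
  have hb := S.br
  have : S.w * (S.E 1 * (S.w * S.E 1 * S.w) * S.E 1) * S.w = S.w := by
    rw [hb, h, one_mul]
  calc S.w * S.E 1 * S.w * S.E 1 * (S.w * S.E 1 * S.w)
      = S.w * (S.E 1 * (S.w * S.E 1 * S.w) * S.E 1) * S.w := by group
    _ = S.w := this

variable {S}

theorem IsTor.one : S.IsTor 1 1 := by
  constructor <;> intro a <;> simp

theorem IsTor.mul {y z : Lˣ} {g h : G} (hg : S.IsTor y g) (hh : S.IsTor z h) :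
    S.IsTor (y * z) (g * h) := by
  constructor
  · intro a
    calc g * h * S.E a * (g * h)⁻¹ = g * (h * S.E a * h⁻¹) * g⁻¹ := by group
      _ = _ := by rw [hh.1, hg.1]; congr 1; push_cast; ring
  · intro a
    calc g * h * S.F a * (g * h)⁻¹ = g * (h * S.F a * h⁻¹) * g⁻¹ := by group
      _ = _ := by rw [hh.2, hg.2]; congr 1; rw [mul_inv]; push_cast; ring

theorem IsTor.inv {y : Lˣ} {g : G} (hg : S.IsTor y g) : S.IsTor y⁻¹ g⁻¹ := by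
  constructor
  · intro a
    have h := hg.1 (((y⁻¹ : Lˣ) : L) ^ 2 * a)
    have e : (y : L) ^ 2 * (((y⁻¹ : Lˣ) : L) ^ 2 * a) = a := by
      rw [← mul_assoc, ← mul_pow, Units.mul_inv, one_pow, one_mul]
    rw [e] at h
    rw [← h]; group
  · intro a
    have h := hg.2 ((y : L) ^ 2 * a)
    have e : ((y⁻¹ : Lˣ) : L) ^ 2 * ((y : L) ^ 2 * a) = a := by
      rw [← mul_assoc, ← mul_pow, Units.inv_mul, one_pow, one_mul]
    rw [e] at h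
    rw [inv_inv, ← h]; group

theorem IsTor.pow {y : Lˣ} {g : G} (hg : S.IsTor y g) (m : ℕ) : S.IsTor (y ^ m) (g ^ m) := by
  induction m with
  | zero => simpa using IsTor.one (S := S)
  | succ m ih => rw [pow_succ, pow_succ]; exact ih.mul hg

theorem IsTor.w {y : Lˣ} {g : G} (hg : S.IsTor y g) : S.IsTor y⁻¹ (S.w * g * S.w) := by
  have hw := S.winv
  constructor
  · intro a
    calc S.w * g * S.w * S.E a * (S.w * g * S.w)⁻¹
        = S.w * (g * (S.w * S.E a * S.w⁻¹) * g⁻¹) * S.w⁻¹ := by group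
      _ = S.w * (g * S.F a * g⁻¹) * S.w := by rw [hw]; rfl
      _ = _ := by rw [hg.2, S.wF]
  · intro a
    calc S.w * g * S.w * S.F a * (S.w * g * S.w)⁻¹
        = S.w * (g * (S.w * S.F a * S.w⁻¹) * g⁻¹) * S.w⁻¹ := by group
      _ = S.w * (g * S.E a * g⁻¹) * S.w := by rw [hw, S.wF]
      _ = _ := by rw [hg.1, inv_inv]; rfl

theorem IsTor.unique (hC : S.Cent) {y : Lˣ} {g h : G} (hg : S.IsTor y g) (hh : S.IsTor y h) :
    g = h := by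
  have hgh : S.IsTor (1 : Lˣ) (h⁻¹ * g) := by
    have := hh.inv.mul hg
    rwa [inv_mul_cancel] at this
  have : h⁻¹ * g = 1 := by
    apply hC
    · intro a
      have h1 := hgh.1 a
      simp only [Units.val_one, one_pow, one_mul] at h1
      exact mul_inv_eq_iff_eq_mul.1 h1
    · intro a
      have h1 := hgh.2 a
      simp only [inv_one, Units.val_one, one_pow, one_mul] at h1
      exact mul_inv_eq_iff_eq_mul.1 h1
  exact (inv_mul_eq_one.1 this).symm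

theorem IsTor.comm (hC : S.Cent) {y z : Lˣ} {g h : G} (hg : S.IsTor y g) (hh : S.IsTor z h) :
    g * h = h * g := by
  have h1 := hh.mul hg
  rw [mul_comm z y] at h1
  exact (hg.mul hh).unique hC h1

theorem IsTor.wgw (hC : S.Cent) {y : Lˣ} {g : G} (hg : S.IsTor y g) :
    S.w * g * S.w = g⁻¹ := hg.w.unique hC hg.inv

theorem IsTor.wg (hC : S.Cent) {y : Lˣ} {g : G} (hg : S.IsTor y g) :
    S.w * g = g⁻¹ * S.w := by
  have h := hg.wgw hC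
  rw [← h, mul_assoc, S.ww, mul_one]

/-- `g E(a) = E(y² a) g` -/
theorem IsTor.gE {y : Lˣ} {g : G} (hg : S.IsTor y g) (a : L) :
    g * S.E a = S.E ((y : L) ^ 2 * a) * g := by
  rw [← hg.1 a]; group

theorem IsTor.gF {y : Lˣ} {g : G} (hg : S.IsTor y g) (a : L) :
    g * S.F a = S.F (((y⁻¹ : Lˣ) : L) ^ 2 * a) * g := by
  rw [← hg.2 a]; group

variable (S) in
/-- the set of torus units -/
def Tor (y : Lˣ) : Prop := ∃ g, S.IsTor y g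

variable (S) in
def torSub : Subgroup Lˣ where
  carrier := {y | S.Tor y}
  one_mem' := ⟨1, IsTor.one⟩
  mul_mem' := by
    rintro a b ⟨g, hg⟩ ⟨h, hh⟩
    exact ⟨g * h, hg.mul hh⟩
  inv_mem' := by
    rintro a ⟨g, hg⟩
    exact ⟨g⁻¹, hg.inv⟩

theorem mem_torSub {y : Lˣ} : y ∈ S.torSub ↔ ∃ g, S.IsTor y g := Iff.rfl

section sqrt

variable {n : ℕ} (hn : 0 < n) (hf : ∀ a : L, a ^ (2 ^ n) = a)

include hf in
theorem unit_pow (y : Lˣ) : y ^ (2 ^ n) = y := by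
  ext; push_cast; exact hf _

include hn hf in
theorem unit_sqrt (y : Lˣ) : (y ^ (2 ^ (n - 1))) ^ 2 = y := by
  rw [← pow_mul, ← pow_succ, Nat.sub_add_cancel hn]
  exact unit_pow hf y

include hn hf in
/-- L1 -/
theorem IsTor.EFE (hC : S.Cent) {y : Lˣ} {g : G} (hg : S.IsTor y g) :
    S.E y * S.F ((y⁻¹ : Lˣ) : L) * S.E y = g * S.w := by
  set z := y ^ (2 ^ (n - 1)) with hz
  have hz2 : z ^ 2 = y := unit_sqrt hn hf y
  set h := g ^ (2 ^ (n - 1)) with hh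
  have hzh : S.IsTor z h := hg.pow _
  have hhg : h * h = g := by
    have h1 := hzh.mul hzh
    rw [← pow_two, hz2] at h1
    exact h1.unique hC hg
  have h2 : h * (S.E 1 * (S.w * S.E 1 * S.w) * S.E 1) * h⁻¹ =
      S.E y * S.F ((y⁻¹ : Lˣ) : L) * S.E y := by
    have e1 : h * (S.E 1 * (S.w * S.E 1 * S.w) * S.E 1) * h⁻¹ =
      (h * S.E 1 * h⁻¹) * (h * S.F 1 * h⁻¹) * (h * S.E 1 * h⁻¹) := by
      change _ = (h * S.E 1 * h⁻¹) * (h * (S.w * S.E 1 * S.w) * h⁻¹) * (h * S.E 1 * h⁻¹)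
      group
    rw [e1, hzh.1, hzh.2, mul_one, mul_one]
    have e2 : (z : L) ^ 2 = y := by rw [← hz2]; push_cast; rfl
    have e3 : ((z⁻¹ : Lˣ) : L) ^ 2 = ((y⁻¹ : Lˣ) : L) := by
      rw [← hz2, ← Units.val_pow_eq_pow_val]; congr 1
    rw [e2, e3]
  rw [← h2, S.br]
  have h3 := hzh.inv.wg hC
  rw [mul_assoc, h3, inv_inv, ← mul_assoc, hhg]

include hn hf in
theorem IsTor.FEF (hC : S.Cent) {y : Lˣ} {g : G} (hg : S.IsTor y g) :
    S.F ((y⁻¹ : Lˣ) : L) * S.E y * S.F ((y⁻¹ : Lˣ) : L) = g * S.w := by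
  have h1 := hg.inv.EFE hn hf hC
  rw [inv_inv] at h1
  have h2 : S.w * (S.E ((y⁻¹ : Lˣ) : L) * S.F y * S.E ((y⁻¹ : Lˣ) : L)) * S.w =
      S.F ((y⁻¹ : Lˣ) : L) * S.E y * S.F ((y⁻¹ : Lˣ) : L) := by
    have hw := S.winv
    calc _ = (S.w * S.E ((y⁻¹ : Lˣ) : L) * S.w) * (S.w⁻¹ * S.F y * S.w⁻¹) *
          (S.w * S.E ((y⁻¹ : Lˣ) : L) * S.w) := by group
      _ = _ := by rw [hw, S.wF]; rfl
  rw [← h2, h1]
  have h3 := hg.inv.wg hC
  rw [inv_inv] at h3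
  calc S.w * (g⁻¹ * S.w) * S.w = (S.w * g⁻¹) * (S.w * S.w) := by group
    _ = g * S.w := by rw [h3, S.ww, mul_one]

end sqrt

variable (S) in
/-- L2: the relation `ℛ`. -/
def Rr (a b : L) : Prop := ∃ (d : Lˣ) (g : G), (d : L) = 1 + a * b ∧ S.IsTor d g ∧
  S.E a * S.F b = S.F (((d⁻¹ : Lˣ) : L) * b) * g * S.E (((d⁻¹ : Lˣ) : L) * a)

theorem Rr.symm (h2 : ∀ a : L, a + a = 0) (hC : S.Cent) {a b : L} (h : S.Rr a b) : S.Rr b a := by
  obtain ⟨d, g, hd, hg, he⟩ := h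
  refine ⟨d, g, by rw [hd]; ring, hg, ?_⟩
  have e1 : (S.E a * S.F b)⁻¹ = S.F b * S.E a := by
    rw [mul_inv_rev, S.Einv h2, S.Finv h2]
  have e2 : S.F b * S.E a =
      S.E (((d⁻¹ : Lˣ) : L) * a) * g⁻¹ * S.F (((d⁻¹ : Lˣ) : L) * b) := by
    rw [← e1, he, mul_inv_rev, mul_inv_rev, S.Einv h2, S.Finv h2, mul_assoc]
  have hw := S.winv
  have e3 : S.w * (S.F b * S.E a) * S.w = S.E b * S.F a := by
    calc S.w * (S.F b * S.E a) * S.w = (S.w * S.F b * S.w) * (S.w⁻¹ * S.E a * S.w) := by group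
      _ = _ := by rw [hw, S.wF]; rfl
  rw [← e3, e2]
  have h3 := hg.inv.wgw hC
  rw [inv_inv] at h3
  calc S.w * (S.E (((d⁻¹ : Lˣ) : L) * a) * g⁻¹ * S.F (((d⁻¹ : Lˣ) : L) * b)) * S.w
      = (S.w * S.E (((d⁻¹ : Lˣ) : L) * a) * S.w) * (S.w⁻¹ * g⁻¹ * S.w) *
        (S.w⁻¹ * S.F (((d⁻¹ : Lˣ) : L) * b) * S.w) := by group
    _ = _ := by rw [hw, h3, S.wF]; rfl

theorem Rr.comb {s a b : L} {d1 : Lˣ} (hd1 : (d1 : L) = 1 + s * b)
    (h1 : S.Rr s b) (h2 : S.Rr a (((d1⁻¹ : Lˣ) : L) * b)) : S.Rr (a + s) b := by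
  obtain ⟨d, g, hd, hg, he⟩ := h1
  have hdd : d = d1 := Units.ext (by rw [hd, hd1])
  subst hdd
  obtain ⟨d2, g2, hd2, hg2, he2⟩ := h2
  have hprod : ((d2 * d : Lˣ) : L) = 1 + (a + s) * b := by
    push_cast
    have : (d : L) * ((d⁻¹ : Lˣ) : L) = 1 := Units.mul_inv d
    calc (d2 : L) * d = (1 + a * (((d⁻¹ : Lˣ) : L) * b)) * d := by rw [hd2]
      _ = d + a * b * ((d : L) * ((d⁻¹ : Lˣ) : L)) := by ring
      _ = _ := by rw [this, hd]; ring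
  refine ⟨d2 * d, g2 * g, hprod, hg2.mul hg, ?_⟩
  rw [S.add, mul_assoc, he]
  have e1 : S.E a * (S.F (((d⁻¹ : Lˣ) : L) * b) * g * S.E (((d⁻¹ : Lˣ) : L) * s)) =
      S.F (((d2⁻¹ : Lˣ) : L) * (((d⁻¹ : Lˣ) : L) * b)) * g2 * (S.E (((d2⁻¹ : Lˣ) : L) * a) * g) *
        S.E (((d⁻¹ : Lˣ) : L) * s) := by
    calc _ = (S.E a * S.F (((d⁻¹ : Lˣ) : L) * b)) * g * S.E (((d⁻¹ : Lˣ) : L) * s) := by group
      _ = _ := by rw [he2]; group
  rw [e1]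
  have e2 : S.E (((d2⁻¹ : Lˣ) : L) * a) * g =
      g * S.E (((d⁻¹ : Lˣ) : L) ^ 2 * (((d2⁻¹ : Lˣ) : L) * a)) := by
    have h3 := hg.gE (((d⁻¹ : Lˣ) : L) ^ 2 * (((d2⁻¹ : Lˣ) : L) * a))
    rw [h3, ← mul_assoc (_ ^ 2), ← mul_pow, Units.mul_inv, one_pow, one_mul]
  rw [e2]
  have e3 : S.F (((d2⁻¹ : Lˣ) : L) * (((d⁻¹ : Lˣ) : L) * b)) * g2 *
      (g * S.E (((d⁻¹ : Lˣ) : L) ^ 2 * (((d2⁻¹ : Lˣ) : L) * a))) * S.E (((d⁻¹ : Lˣ) : L) * s) =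
      S.F (((d2⁻¹ : Lˣ) : L) * (((d⁻¹ : Lˣ) : L) * b)) * (g2 * g) *
      (S.E (((d⁻¹ : Lˣ) : L) ^ 2 * (((d2⁻¹ : Lˣ) : L) * a)) * S.E (((d⁻¹ : Lˣ) : L) * s)) := by
    group
  rw [e3, ← S.add]
  congr 1
  · congr 2
    rw [mul_inv]; push_cast; ring
  · congr 1
    -- a/(d2 d^2) + s/d = (a+s)/(d2 d)
    have i1 : (d : L) * ((d⁻¹ : Lˣ) : L) = 1 := Units.mul_inv d
    have i2 : (d2 : L) * ((d2⁻¹ : Lˣ) : L) = 1 := Units.mul_inv d2
    rw [mul_inv]; push_cast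
    set p := ((d⁻¹ : Lˣ) : L)
    set q := ((d2⁻¹ : Lˣ) : L)
    -- use d = 1 + s b , d2 = 1 + a p b
    have j1 : p + s * b * p = 1 := by
      calc p + s * b * p = (d : L) * p := by rw [hd]; ring
        _ = 1 := i1
    have j2 : q + a * (p * b) * q = 1 := by
      calc q + a * (p * b) * q = (d2 : L) * q := by rw [hd2]; ring
        _ = 1 := i2
    -- p^2 q a + p s = q p a + q p s
    -- p s = p s (q + a p b q) ; p q a = p q a (p + s b p)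
    calc p ^ 2 * (q * a) + p * s = p ^ 2 * (q * a) + p * s * (q + a * (p * b) * q) := by
          rw [j2, mul_one]
      _ = p * q * a * (p + s * b * p) + p * q * s := by ring
      _ = _ := by rw [j1]; ring

theorem Rr.scale (hC : S.Cent) {a b : L} (h : S.Rr a b) {y : Lˣ} {k : G} (hk : S.IsTor y k) :
    S.Rr ((y : L) ^ 2 * a) (((y⁻¹ : Lˣ) : L) ^ 2 * b) := by
  obtain ⟨d, g, hd, hg, he⟩ := h
  have i1 : (y : L) * ((y⁻¹ : Lˣ) : L) = 1 := Units.mul_inv y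
  refine ⟨d, g, ?_, hg, ?_⟩
  · calc (d : L) = 1 + a * b * ((y : L) * ((y⁻¹ : Lˣ) : L)) ^ 2 := by rw [i1, hd]; ring
      _ = _ := by ring
  · have e1 : S.E ((y : L) ^ 2 * a) * S.F (((y⁻¹ : Lˣ) : L) ^ 2 * b) =
        k * (S.E a * S.F b) * k⁻¹ := by
      rw [← hk.1, ← hk.2]; group
    have hkg := hk.comm hC hg
    rw [e1, he]
    calc k * (S.F (((d⁻¹ : Lˣ) : L) * b) * g * S.E (((d⁻¹ : Lˣ) : L) * a)) * k⁻¹
        = (k * S.F (((d⁻¹ : Lˣ) : L) * b) * k⁻¹) * (k * g) * (S.E (((d⁻¹ : Lˣ) : L) * a)) * k⁻¹ := by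
          group
      _ = (k * S.F (((d⁻¹ : Lˣ) : L) * b) * k⁻¹) * g * (k * (S.E (((d⁻¹ : Lˣ) : L) * a)) * k⁻¹) := by
          rw [hkg]; group
      _ = _ := by
          rw [hk.1, hk.2, mul_left_comm _ ((d⁻¹ : Lˣ) : L) b, mul_left_comm _ ((d⁻¹ : Lˣ) : L) a]

section sqrt

variable {n : ℕ} (hn : 0 < n) (hf : ∀ a : L, a ^ (2 ^ n) = a)

include hn hf in
/-- (a) -/
theorem Rr.of_tor (h2 : ∀ a : L, a + a = 0) (hC : S.Cent) {a d : Lˣ} {b : L}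
    (ha : S.Tor a) (hdt : S.Tor d) (hd : (d : L) = 1 + a * b) : S.Rr a b := by
  obtain ⟨ga, hga⟩ := ha
  obtain ⟨gd, hgd⟩ := hdt
  refine ⟨d, gd, hd, hgd, ?_⟩
  -- F(1/a) W(a) F(1/a) = E a
  have ia : (a : L) * ((a⁻¹ : Lˣ) : L) = 1 := Units.mul_inv a
  have id : (d : L) * ((d⁻¹ : Lˣ) : L) = 1 := Units.mul_inv d
  have h1 := hga.FEF hn hf hC
  have hEa : S.E a = S.F ((a⁻¹ : Lˣ) : L) * (ga * S.w) * S.F ((a⁻¹ : Lˣ) : L) := by
    rw [← h1]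
    calc S.E a = 1 * S.E a * 1 := by group
      _ = _ := by
        rw [← S.FF h2 ((a⁻¹ : Lˣ) : L)]; group
  -- W(a/d)
  have had : S.IsTor (a * d⁻¹) (ga * gd⁻¹) := hga.mul hgd.inv
  have h3 := had.EFE hn hf hC
  have e0 : (((a * d⁻¹ : Lˣ)⁻¹ : Lˣ) : L) = ((a⁻¹ : Lˣ) : L) + b := by
    rw [mul_inv, inv_inv]; push_cast
    calc ((a⁻¹ : Lˣ) : L) * d = ((a⁻¹ : Lˣ) : L) + (a * ((a⁻¹ : Lˣ) : L)) * b := by rw [hd]; ring
      _ = _ := by rw [ia]; ring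
  have hFad : S.F (((a⁻¹ : Lˣ) : L) + b) = S.E ((a * d⁻¹ : Lˣ) : L) * (ga * gd⁻¹ * S.w) *
      S.E ((a * d⁻¹ : Lˣ) : L) := by
    rw [← h3, ← e0]
    calc S.F (((a * d⁻¹ : Lˣ)⁻¹ : Lˣ) : L) = 1 * S.F (((a * d⁻¹ : Lˣ)⁻¹ : Lˣ) : L) * 1 := by group
      _ = _ := by
        rw [← S.EE h2 ((a * d⁻¹ : Lˣ) : L)]; group
  have hww := S.ww
  have hga' : (ga * S.w) * S.E ((a * d⁻¹ : Lˣ) : L) = S.F (((a⁻¹ : Lˣ) : L) ^ 2 *
      ((a * d⁻¹ : Lˣ) : L)) * (ga * S.w) := by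
    have q1 : S.w * S.E ((a * d⁻¹ : Lˣ) : L) = S.F ((a * d⁻¹ : Lˣ) : L) * S.w := by
      change _ = S.w * S.E ((a * d⁻¹ : Lˣ) : L) * S.w * S.w
      rw [mul_assoc _ S.w S.w, hww, mul_one]
    rw [mul_assoc, q1, ← mul_assoc, hga.gF, mul_assoc]
  have hwgw := hga.mul hgd.inv
  have h5 := had.wgw hC
  calc S.E a * S.F b = S.F ((a⁻¹ : Lˣ) : L) * (ga * S.w) * (S.F ((a⁻¹ : Lˣ) : L) * S.F b) := by
        rw [hEa]; group
    _ = S.F ((a⁻¹ : Lˣ) : L) * ((ga * S.w) * S.E ((a * d⁻¹ : Lˣ) : L)) * (ga * gd⁻¹ * S.w) *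
      S.E ((a * d⁻¹ : Lˣ) : L) := by rw [← S.Fadd, hFad]; group
    _ = (S.F ((a⁻¹ : Lˣ) : L) * S.F (((a⁻¹ : Lˣ) : L) ^ 2 * ((a * d⁻¹ : Lˣ) : L))) * ga *
      (S.w * (ga * gd⁻¹) * S.w) * S.E ((a * d⁻¹ : Lˣ) : L) := by rw [hga']; group
    _ = _ := by
      rw [← S.Fadd, h5]
      have c1 : ga * (ga * gd⁻¹)⁻¹ = gd := by
        have := hga.comm hC hgd
        rw [mul_inv_rev, inv_inv, ← mul_assoc, this]; group
      have c2 : ((a⁻¹ : Lˣ) : L) + ((a⁻¹ : Lˣ) : L) ^ 2 * ((a * d⁻¹ : Lˣ) : L) =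
          ((d⁻¹ : Lˣ) : L) * b := by
        push_cast
        set p := ((a⁻¹ : Lˣ) : L)
        set q := ((d⁻¹ : Lˣ) : L)
        have j1 : q + a * b * q = 1 := by
          calc q + a * b * q = (d : L) * q := by rw [hd]; ring
            _ = 1 := id
        linear_combination (p * q + b * q) * ia - p * j1 + h2 (p * q)
      have c3 : ((a * d⁻¹ : Lˣ) : L) = ((d⁻¹ : Lˣ) : L) * a := by push_cast; ring
      rw [c2, c3, mul_assoc (S.F _) ga, c1]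

end sqrt

end Sys

end Pool.Agent.Helper46.DZ2
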